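import Mathlib

/-!
Combinatorial inequality used for the trace of the adjacency average mixing matrix.
`a` is the 0/1 adjacency function, `x` a positive unit vector with `∑_w a v w * x w = θ * x v`.
-/

namespace Pool.Agent.X8.AM

open Finset

variable {V : Type*} [Fintype V] [DecidableEq V]

/-- the data: a graph given by a 0/1 function and a positive unit eigenvector -/
structure Dat (a : V → V → ℝ) (x : V → ℝ) (θ : ℝ) : Prop where
  a01 : ∀ v w, a v w = 0 ∨ a v w = 1
  symm : ∀ v w, a v w = a w v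
  irr : ∀ v, a v v = 0
  pos : ∀ v, 0 < x v
  unit : ∑ v, x v ^ 2 = 1
  eig : ∀ v, ∑ w, a v w * x w = θ * x v
  nbr : ∀ v, ∃ w, a v w = 1

variable {a : V → V → ℝ} {x : V → ℝ} {θ : ℝ}

namespace Dat

lemma a_nonneg (h : Dat a x θ) (v w : V) : 0 ≤ a v w := by
  rcases h.a01 v w with e | e <;> rw [e] <;> norm_num

lemma a_le_one (h : Dat a x θ) (v w : V) : a v w ≤ 1 := by
  rcases h.a01 v w with e | e <;> rw [e] <;> norm_num

lemma a_sq (h : Dat a x θ) (v w : V) : a v w ^ 2 = a v w := by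
  rcases h.a01 v w with e | e <;> rw [e] <;> norm_num

/-- degree -/
def d (a : V → V → ℝ) (v : V) : ℝ := ∑ w, a v w
/-- `q v` is the `x²`-mass of the neighbourhood of `v` -/
def q (a : V → V → ℝ) (x : V → ℝ) (v : V) : ℝ := ∑ w, a v w * x w ^ 2

/-- `∑ d v * x v ^ 2` -/
def D (a : V → V → ℝ) (x : V → ℝ) : ℝ := ∑ v, d a v * x v ^ 2
/-- `∑ x v ^ 4` -/
def S (x : V → ℝ) : ℝ := ∑ v, (x v ^ 2) ^ 2

lemma D_eq (h : Dat a x θ) : D a x = ∑ v, q a x v := by
  unfold D d q
  simp_rw [sum_mul]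
  rw [sum_comm]
  refine sum_congr rfl fun v _ => sum_congr rfl fun w _ => ?_
  rw [h.symm]

lemma q_nonneg (h : Dat a x θ) (v : V) : 0 ≤ q a x v :=
  sum_nonneg fun w _ => mul_nonneg (h.a_nonneg v w) (sq_nonneg _)

lemma cauchy (h : Dat a x θ) (v : V) : θ ^ 2 * x v ^ 2 ≤ d a v * q a x v := by
  have h1 := sum_mul_sq_le_sq_mul_sq (univ : Finset V) (fun w => a v w) (fun w => a v w * x w)
  have e1 : ∑ w, a v w * (a v w * x w) = θ * x v := by
    rw [← h.eig v]
    refine sum_congr rfl fun w _ => ?_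
    have := h.a_sq v w
    calc a v w * (a v w * x w) = a v w ^ 2 * x w := by ring
      _ = _ := by rw [this]
  have e2 : ∑ w, a v w ^ 2 = d a v := sum_congr rfl fun w _ => h.a_sq v w
  have e3 : ∑ w, (a v w * x w) ^ 2 = q a x v := by
    refine sum_congr rfl fun w _ => ?_
    rw [mul_pow, h.a_sq]
  rw [e1, e2, e3] at h1
  nlinarith [h1]

lemma q_add_le (h : Dat a x θ) (v : V) : q a x v + x v ^ 2 ≤ 1 := by
  rw [← h.unit]
  have : x v ^ 2 = ∑ w, if w = v then x w ^ 2 else 0 := by simp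
  rw [this, q, ← sum_add_distrib]
  refine sum_le_sum fun w _ => ?_
  by_cases e : w = v
  · subst e; simp [h.irr]
  · simp only [e, if_false, add_zero]
    nlinarith [h.a_le_one v w, sq_nonneg (x w)]

lemma theta_pos [Nonempty V] (h : Dat a x θ) : 0 < θ := by
  obtain ⟨v⟩ := ‹Nonempty V›
  obtain ⟨w, hw⟩ := h.nbr v
  have h1 : x w ≤ θ * x v := by
    rw [← h.eig v]
    have := single_le_sum (f := fun w => a v w * x w)
      (fun i _ => mul_nonneg (h.a_nonneg v i) (h.pos i).le) (mem_univ w)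
    simpa [hw] using this
  have h2 := h.pos v
  have h3 := h.pos w
  by_contra hc
  push Not at hc
  nlinarith

lemma adj_le (h : Dat a x θ) {v w : V} (hw : a v w = 1) : x w ≤ θ * x v := by
  rw [← h.eig v]
  have := single_le_sum (f := fun w => a v w * x w)
      (fun i _ => mul_nonneg (h.a_nonneg v i) (h.pos i).le) (mem_univ w)
  simpa [hw] using this

lemma a_mul_le (h : Dat a x θ) (v w : V) : a v w * x v ≤ a v w * (θ * x w) := by
  rcases h.a01 v w with e | e
  · simp [e]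
  · have := h.adj_le (v := w) (w := v) (by rw [h.symm]; exact e)
    rw [e]; linarith

lemma d_le (h : Dat a x θ) (v : V) : d a v ≤ θ ^ 2 := by
  have h1 : d a v * x v ≤ θ ^ 2 * x v := by
    have e : θ ^ 2 * x v = ∑ w, a v w * (θ * x w) := by
      have : θ ^ 2 * x v = θ * (θ * x v) := by ring
      rw [this, ← h.eig v, mul_sum]
      refine sum_congr rfl fun w _ => by ring
    rw [e, d, sum_mul]
    exact sum_le_sum fun w _ => h.a_mul_le v w
  exact le_of_mul_le_mul_right h1 (h.pos v)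

lemma one_le_d (h : Dat a x θ) (v : V) : 1 ≤ d a v := by
  obtain ⟨w, hw⟩ := h.nbr v
  have := single_le_sum (f := fun w => a v w) (fun i _ => h.a_nonneg v i) (mem_univ w)
  simp only [hw] at this
  exact this

lemma y_le_half [Nonempty V] (h : Dat a x θ) (v : V) : x v ^ 2 ≤ 1 / 2 := by
  have h1 := h.cauchy v
  have h2 := h.q_add_le v
  have h3 := h.d_le v
  have h4 := h.theta_pos
  have h5 := h.q_nonneg v
  have h6 : d a v * q a x v ≤ θ ^ 2 * (1 - x v ^ 2) := by
    have := h.one_le_d v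
    nlinarith
  have h7 : 0 < θ ^ 2 := by positivity
  have h8 : θ ^ 2 * x v ^ 2 ≤ θ ^ 2 * (1 - x v ^ 2) := h1.trans h6
  have := le_of_mul_le_mul_left h8 h7
  linarith

/-- Hong's bound: `2m - θ² ≥ n - 1`. -/
lemma hong (h : Dat a x θ) : (Fintype.card V : ℝ) - 1 ≤ ∑ v, d a v - θ ^ 2 := by
  have e1 : θ ^ 2 = ∑ v, θ ^ 2 * x v ^ 2 := by rw [← mul_sum, h.unit, mul_one]
  have e2 : ∑ v, θ ^ 2 * x v ^ 2 ≤ ∑ v, d a v * q a x v := sum_le_sum fun v _ => h.cauchy v
  have e3 : ∑ v, ((1 - q a x v - x v ^ 2) + d a v * x v ^ 2) ≤ ∑ v, (d a v - d a v * q a x v) := by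
    refine sum_le_sum fun v _ => ?_
    have h1 := h.one_le_d v
    have h2 := h.q_add_le v
    nlinarith
  have e4 : ∑ v, ((1 - q a x v - x v ^ 2) + d a v * x v ^ 2)
      = (Fintype.card V : ℝ) - ∑ v, q a x v - 1 + D a x := by
    rw [sum_add_distrib, sum_sub_distrib, sum_sub_distrib, h.unit]
    simp [D]
  have e5 := h.D_eq
  rw [sum_sub_distrib] at e3
  rw [e4] at e3
  linarith

lemma D_pos_bound (h : Dat a x θ) : D a x ≤ (Fintype.card V : ℝ) - 1 := by
  rw [h.D_eq]
  have : ∑ v, q a x v ≤ ∑ v, (1 - x v ^ 2) := sum_le_sum fun v _ => by linarith [h.q_add_le v]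
  rw [sum_sub_distrib, h.unit] at this
  simpa using this

end Dat

end Pool.Agent.X8.AM
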