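import Pool.Agent.X8.AMComb

namespace Pool.Agent.X8.AM

open Finset

variable {V : Type*} [Fintype V] [DecidableEq V]
variable {a : V → V → ℝ} {x : V → ℝ} {θ : ℝ}

namespace Dat

/-- weighted triangle density -/
def t3 (a : V → V → ℝ) (x : V → ℝ) : ℝ :=
  ∑ v, ∑ w, ∑ u, a v w * a v u * a w u * (x v ^ 2 * x w ^ 2 * x u ^ 2)

/-- weighted edge density -/
def t2 (a : V → V → ℝ) (x : V → ℝ) : ℝ := ∑ v, x v ^ 2 * q a x v

def tau (a : V → V → ℝ) (x : V → ℝ) (v : V) : ℝ :=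
  ∑ w, ∑ u, a v w * a v u * a w u * (x w * x u)

lemma goodman (h : Dat a x θ) : 2 * t2 a x ^ 2 ≤ t2 a x + t3 a x := by
  have h1 : t2 a x ^ 2 ≤ ∑ v, x v ^ 2 * q a x v ^ 2 := by
    have e : 0 ≤ ∑ v, x v ^ 2 * (q a x v - t2 a x) ^ 2 :=
      sum_nonneg fun v _ => by positivity
    have e2 : ∑ v, x v ^ 2 * (q a x v - t2 a x) ^ 2
        = ∑ v, x v ^ 2 * q a x v ^ 2 - 2 * t2 a x * t2 a x + t2 a x ^ 2 * ∑ v, x v ^ 2 := by
      rw [mul_sum]
      conv_rhs => rw [show 2 * t2 a x * t2 a x = 2 * t2 a x * ∑ v, x v ^ 2 * q a x v from rfl]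
      rw [mul_sum, ← sum_sub_distrib, ← sum_add_distrib]
      exact sum_congr rfl fun v _ => by ring
    rw [e2, h.unit] at e
    nlinarith
  have h2 : ∑ v, ∑ w, a v w * (x v ^ 2 * x w ^ 2) * (q a x v + q a x w)
      = 2 * ∑ v, x v ^ 2 * q a x v ^ 2 := by
    have e1 : ∑ v, ∑ w, a v w * (x v ^ 2 * x w ^ 2) * q a x v = ∑ v, x v ^ 2 * q a x v ^ 2 := by
      refine sum_congr rfl fun v _ => ?_
      have : x v ^ 2 * q a x v ^ 2 = x v ^ 2 * q a x v * ∑ w, a v w * x w ^ 2 := by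
        rw [show ∑ w, a v w * x w ^ 2 = q a x v from rfl]; ring
      rw [this, mul_sum]
      exact sum_congr rfl fun w _ => by ring
    have e2 : ∑ v, ∑ w, a v w * (x v ^ 2 * x w ^ 2) * q a x w = ∑ v, x v ^ 2 * q a x v ^ 2 := by
      rw [sum_comm, ← e1]
      refine sum_congr rfl fun v _ => sum_congr rfl fun w _ => ?_
      rw [h.symm w v]; ring
    simp_rw [mul_add, sum_add_distrib]
    rw [e1, e2]; ring
  have h3 : ∑ v, ∑ w, a v w * (x v ^ 2 * x w ^ 2) * (q a x v + q a x w)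
      ≤ ∑ v, ∑ w, a v w * (x v ^ 2 * x w ^ 2) * (1 + ∑ u, a v u * a w u * x u ^ 2) := by
    refine sum_le_sum fun v _ => sum_le_sum fun w _ => ?_
    refine mul_le_mul_of_nonneg_left ?_ (mul_nonneg (h.a_nonneg v w) (by positivity))
    rw [← h.unit, q, q, ← sum_add_distrib, ← sum_add_distrib]
    refine sum_le_sum fun u _ => ?_
    have hu := sq_nonneg (x u)
    have h5 : a v u + a w u ≤ 1 + a v u * a w u := by
      nlinarith [h.a_le_one v u, h.a_le_one w u]
    nlinarith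
  have h4 : ∑ v, ∑ w, a v w * (x v ^ 2 * x w ^ 2) * (1 + ∑ u, a v u * a w u * x u ^ 2)
      = t2 a x + t3 a x := by
    simp_rw [mul_add, sum_add_distrib]
    congr 1
    · rw [t2]
      refine sum_congr rfl fun v _ => ?_
      rw [q, mul_sum]
      exact sum_congr rfl fun w _ => by ring
    · rw [t3]
      refine sum_congr rfl fun v _ => sum_congr rfl fun w _ => ?_
      rw [mul_sum]
      exact sum_congr rfl fun u _ => by ring
  rw [h2, h4] at h3
  nlinarith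

lemma t3_nonneg (h : Dat a x θ) : 0 ≤ t3 a x :=
  sum_nonneg fun v _ => sum_nonneg fun w _ => sum_nonneg fun u _ =>
    mul_nonneg (mul_nonneg (mul_nonneg (h.a_nonneg _ _) (h.a_nonneg _ _)) (h.a_nonneg _ _))
      (by positivity)

lemma theta_y (h : Dat a x θ) (v : V) : q a x v + tau a x v ≤ θ ^ 2 * x v ^ 2 := by
  have e : θ ^ 2 * x v ^ 2 = ∑ w, ∑ u, a v w * a v u * (x w * x u) := by
    have : θ ^ 2 * x v ^ 2 = (θ * x v) * (θ * x v) := by ring
    rw [this, ← h.eig v, sum_mul_sum]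
    exact sum_congr rfl fun w _ => sum_congr rfl fun u _ => by ring
  rw [e, q, tau, ← sum_add_distrib]
  refine sum_le_sum fun w _ => ?_
  have e2 : a v w * x w ^ 2 = ∑ u, if u = w then a v w * x w ^ 2 else 0 := by simp
  rw [e2, ← sum_add_distrib]
  refine sum_le_sum fun u _ => ?_
  by_cases hu : u = w
  · subst hu
    simp only [if_true, h.irr]
    have := h.a_sq v u
    nlinarith
  · simp only [hu, if_false, zero_add]
    have h1 : 0 ≤ a v w * a v u * (x w * x u) :=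
      mul_nonneg (mul_nonneg (h.a_nonneg _ _) (h.a_nonneg _ _))
        (mul_nonneg (h.pos _).le (h.pos _).le)
    have h2 := h.a_le_one w u
    nlinarith

lemma tri_point (h : Dat a x θ) (v w u : V) :
    a v w * a v u * a w u * (6 * (x v ^ 2 * x w ^ 2 * x u ^ 2)) ≤
      a v w * a v u * a w u *
        (x w * x u * (1 - 2 * x v ^ 2) + x v * x u * (1 - 2 * x w ^ 2)
          + x v * x w * (1 - 2 * x u ^ 2)) := by
  by_cases hvw : v = w
  · subst hvw; simp [h.irr]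
  by_cases hvu : v = u
  · subst hvu; simp [h.irr]
  by_cases hwu : w = u
  · subst hwu; simp [h.irr]
  have hA : 0 ≤ a v w * a v u * a w u :=
    mul_nonneg (mul_nonneg (h.a_nonneg _ _) (h.a_nonneg _ _)) (h.a_nonneg _ _)
  refine mul_le_mul_of_nonneg_left ?_ hA
  have hsum : x v ^ 2 + x w ^ 2 + x u ^ 2 ≤ 1 := by
    rw [← h.unit]
    have : ∑ z ∈ ({v, w, u} : Finset V), x z ^ 2 = x v ^ 2 + x w ^ 2 + x u ^ 2 := by
      rw [sum_insert (by simp [hvw, hvu]), sum_insert (by simp [hwu]), sum_singleton]; ring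
    rw [← this]
    exact sum_le_sum_of_subset_of_nonneg (subset_univ _) fun z _ _ => sq_nonneg _
  have : Nonempty V := ⟨v⟩
  have gv := h.y_le_half v
  have gw := h.y_le_half w
  have gu := h.y_le_half u
  have hv := h.pos v
  have hw := h.pos w
  have hu := h.pos u
  generalize x v = p at *
  generalize x w = r at *
  generalize x u = s at *
  have k1 : 2 * (r ^ 2 * s ^ 2) ≤ r * s := by
    have : r * s ≤ 1 / 2 := by nlinarith [sq_nonneg (r - s), sq_nonneg p]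
    have h0 : 0 < r * s := by positivity
    nlinarith
  have k2 : 2 * (p ^ 2 * s ^ 2) ≤ p * s := by
    have : p * s ≤ 1 / 2 := by nlinarith [sq_nonneg (p - s), sq_nonneg r]
    have h0 : 0 < p * s := by positivity
    nlinarith
  have k3 : 2 * (p ^ 2 * r ^ 2) ≤ p * r := by
    have : p * r ≤ 1 / 2 := by nlinarith [sq_nonneg (p - r), sq_nonneg s]
    have h0 : 0 < p * r := by positivity
    nlinarith
  have m1 : 0 ≤ (r * s - 2 * (r ^ 2 * s ^ 2)) * (1 - 2 * p ^ 2) :=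
    mul_nonneg (by linarith) (by linarith)
  have m2 : 0 ≤ (p * s - 2 * (p ^ 2 * s ^ 2)) * (1 - 2 * r ^ 2) :=
    mul_nonneg (by linarith) (by linarith)
  have m3 : 0 ≤ (p * r - 2 * (p ^ 2 * r ^ 2)) * (1 - 2 * s ^ 2) :=
    mul_nonneg (by linarith) (by linarith)
  have key : 9 * (p ^ 2 * r ^ 2 * s ^ 2) ≤ p ^ 2 * r ^ 2 + p ^ 2 * s ^ 2 + r ^ 2 * s ^ 2 := by
    have hP : 0 < p ^ 2 := by positivity
    have hR : 0 < r ^ 2 := by positivity
    have hS : 0 < s ^ 2 := by positivity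
    have aux : ∀ P R S : ℝ, 0 < P → 0 < R → 0 < S → P + R + S ≤ 1 →
        9 * (P * R * S) ≤ P * R + P * S + R * S := by
      intro P R S hP hR hS hsum
      have h9 : 9 * (P * R * S) ≤ (P * R + P * S + R * S) * (P + R + S) := by
        nlinarith [mul_nonneg hP.le (sq_nonneg (R - S)), mul_nonneg hR.le (sq_nonneg (P - S)),
          mul_nonneg hS.le (sq_nonneg (P - R))]
      have : (P * R + P * S + R * S) * (P + R + S) ≤ (P * R + P * S + R * S) * 1 :=
        mul_le_mul_of_nonneg_left hsum (by positivity)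
      linarith
    exact aux _ _ _ hP hR hS hsum
  nlinarith

/-- `∑ τ_v (1 - 2 y_v) ≥ 2 t₃` -/
lemma Z_ge (h : Dat a x θ) : 2 * t3 a x ≤ ∑ v, (1 - 2 * x v ^ 2) * tau a x v := by
  set F : V → V → V → ℝ := fun v w u => a v w * a v u * a w u * (x w * x u * (1 - 2 * x v ^ 2))
    with hF
  have e0 : ∑ v, (1 - 2 * x v ^ 2) * tau a x v = ∑ v, ∑ w, ∑ u, F v w u := by
    refine sum_congr rfl fun v _ => ?_
    rw [tau, mul_sum]
    refine sum_congr rfl fun w _ => ?_
    rw [mul_sum]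
    exact sum_congr rfl fun u _ => by simp only [hF]; ring
  have e1 : ∑ v, ∑ w, ∑ u, F w v u = ∑ v, ∑ w, ∑ u, F v w u := by rw [sum_comm]
  have e2 : ∑ v, ∑ w, ∑ u, F u v w = ∑ v, ∑ w, ∑ u, F v w u := by
    have : ∀ v, ∑ w, ∑ u, F u v w = ∑ u, ∑ w, F u v w := fun v => sum_comm
    simp_rw [this]
    rw [sum_comm]
  have e3 : ∑ v, ∑ w, ∑ u, a v w * a v u * a w u *
        (x w * x u * (1 - 2 * x v ^ 2) + x v * x u * (1 - 2 * x w ^ 2)
          + x v * x w * (1 - 2 * x u ^ 2))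
      = ∑ v, ∑ w, ∑ u, F v w u + ∑ v, ∑ w, ∑ u, F w v u + ∑ v, ∑ w, ∑ u, F u v w := by
    simp_rw [← sum_add_distrib]
    refine sum_congr rfl fun v _ => sum_congr rfl fun w _ => sum_congr rfl fun u _ => ?_
    simp only [hF]
    rw [h.symm w v, h.symm u v, h.symm u w]; ring
  have e4 : ∑ v, ∑ w, ∑ u, a v w * a v u * a w u * (6 * (x v ^ 2 * x w ^ 2 * x u ^ 2))
      = 6 * t3 a x := by
    rw [t3, mul_sum]
    refine sum_congr rfl fun v _ => ?_
    rw [mul_sum]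
    refine sum_congr rfl fun w _ => ?_
    rw [mul_sum]
    exact sum_congr rfl fun u _ => by ring
  have e5 := sum_le_sum (s := (univ : Finset V)) fun v _ => sum_le_sum (s := (univ : Finset V))
    fun w _ => sum_le_sum (s := (univ : Finset V)) fun u _ => h.tri_point v w u
  rw [e3, e4, e1, e2] at e5
  rw [e0]
  linarith

/-- `D + 2 θ² S ≤ θ² + 1`, with equality for stars. -/
lemma I5 (h : Dat a x θ) : D a x + 2 * θ ^ 2 * S x ≤ θ ^ 2 + 1 := by
  have h1 : ∑ v, (1 - 2 * x v ^ 2) * (q a x v + tau a x v)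
      ≤ ∑ v, (1 - 2 * x v ^ 2) * (θ ^ 2 * x v ^ 2) := by
    refine sum_le_sum fun v _ => ?_
    have : Nonempty V := ⟨v⟩
    exact mul_le_mul_of_nonneg_left (h.theta_y v) (by linarith [h.y_le_half v])
  have h2 : ∑ v, (1 - 2 * x v ^ 2) * (θ ^ 2 * x v ^ 2) = θ ^ 2 - 2 * θ ^ 2 * S x := by
    have e1 : ∑ v, θ ^ 2 * x v ^ 2 = θ ^ 2 := by rw [← mul_sum, h.unit, mul_one]
    have e2 : 2 * θ ^ 2 * S x = ∑ v, 2 * θ ^ 2 * (x v ^ 2) ^ 2 := by rw [S, mul_sum]
    have e3 : ∑ v, (1 - 2 * x v ^ 2) * (θ ^ 2 * x v ^ 2)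
        = ∑ v, θ ^ 2 * x v ^ 2 - ∑ v, 2 * θ ^ 2 * (x v ^ 2) ^ 2 := by
      rw [← sum_sub_distrib]
      exact sum_congr rfl fun v _ => by ring
    rw [e3, e1, e2]
  have h3 : ∑ v, (1 - 2 * x v ^ 2) * (q a x v + tau a x v)
      = D a x - 2 * t2 a x + ∑ v, (1 - 2 * x v ^ 2) * tau a x v := by
    rw [h.D_eq, t2, mul_sum, ← sum_sub_distrib, ← sum_add_distrib]
    exact sum_congr rfl fun v _ => by ring
  have h4 := h.Z_ge
  have h5 := h.goodman
  have h6 := h.t3_nonneg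
  rw [h3, h2] at h1
  have h7 : 2 * t2 a x - 1 ≤ 2 * t3 a x := by
    rcases le_or_gt (t2 a x) (1 / 2) with hh | hh
    · linarith
    · nlinarith
  linarith

end Dat

end Pool.Agent.X8.AM
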