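import Pool.Agent.X8.AMComb2

namespace Pool.Agent.X8.AM

open Finset

variable {V : Type*} [Fintype V] [DecidableEq V]
variable {a : V → V → ℝ} {x : V → ℝ} {θ : ℝ}

namespace Dat

/-- closed adjacency -/
def cc (a : V → V → ℝ) (v u : V) : ℝ := a v u + if u = v then 1 else 0

lemma cc01 (h : Dat a x θ) (v u : V) : cc a v u = 0 ∨ cc a v u = 1 := by
  unfold cc
  by_cases e : u = v
  · subst e; simp [h.irr]
  · simpa [e] using h.a01 v u

lemma cc_eig (h : Dat a x θ) (v : V) : ∑ u, cc a v u * x u = (θ + 1) * x v := by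
  simp only [cc, add_mul, sum_add_distrib, h.eig]
  simp

lemma cc_symm (h : Dat a x θ) (v u : V) : cc a v u = cc a u v := by
  unfold cc
  rw [h.symm v u]
  congr 1
  by_cases e : u = v
  · simp [e]
  · simp [e, Ne.symm e]

lemma cc_y (v : V) : ∑ u, cc a v u * x u ^ 2 = q a x v + x v ^ 2 := by
  simp only [cc, add_mul, sum_add_distrib, q]
  simp

/-- the one-variable inequality `(1-β)(1+β)² ≤ 32/27` in homogeneous form -/
lemma cubic {p r : ℝ} (hp : 0 < p) (hr : 0 < r) : (p - r) * (p + r) ^ 2 ≤ 32 / 27 * p ^ 2 * p := by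
  nlinarith [mul_nonneg (by positivity : (0:ℝ) ≤ 5 / 3 * p + r) (sq_nonneg (p - 3 * r)),
    mul_nonneg (by positivity : (0:ℝ) ≤ 5 * p + 3 * r) (sq_nonneg (p - 3 * r))]

lemma local_ineq (h : Dat a x θ) {μ : ℝ} (hμ : ∀ v, x v ^ 2 ≤ μ) (w : V) :
    ∑ v, (if x w < x v then (x v ^ 2 - x w ^ 2) ^ 2 else 0)
      ≤ 32 / 27 * μ * (1 - x w ^ 2 - q a x w) := by
  have hne : Nonempty V := ⟨w⟩
  have hθ := h.theta_pos
  have hlam : 0 < θ + 1 := by linarith
  have hμ0 : 0 ≤ μ := (sq_nonneg _).trans (hμ w)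
  have key : (θ + 1) * ∑ v, (if x w < x v then (x v ^ 2 - x w ^ 2) ^ 2 else 0)
      ≤ (θ + 1) * (32 / 27 * μ * (1 - x w ^ 2 - q a x w)) := by
    have step1 : ∀ v, (θ + 1) * (if x w < x v then (x v ^ 2 - x w ^ 2) ^ 2 else 0)
        ≤ 32 / 27 * μ * x v * ∑ u, cc a v u * (1 - cc a w u) * x u := by
      intro v
      have hsum0 : 0 ≤ ∑ u, cc a v u * (1 - cc a w u) * x u := by
        refine sum_nonneg fun u _ => mul_nonneg (mul_nonneg ?_ ?_) (h.pos u).le
        · rcases h.cc01 v u with e | e <;> rw [e] <;> norm_num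
        · rcases h.cc01 w u with e | e <;> rw [e] <;> norm_num
      split_ifs with hvw
      · have hd : (θ + 1) * (x v - x w) ≤ ∑ u, cc a v u * (1 - cc a w u) * x u := by
          have e : (θ + 1) * (x v - x w) = ∑ u, (cc a v u - cc a w u) * x u := by
            rw [mul_sub, ← h.cc_eig v, ← h.cc_eig w, ← sum_sub_distrib]
            exact sum_congr rfl fun u _ => by ring
          rw [e]
          refine sum_le_sum fun u _ => mul_le_mul_of_nonneg_right ?_ (h.pos u).le
          rcases h.cc01 v u with e | e <;> rcases h.cc01 w u with e' | e' <;>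
            rw [e, e'] <;> norm_num
        have hk : (x v - x w) * (x v + x w) ^ 2 ≤ 32 / 27 * μ * x v := by
          refine (cubic (h.pos v) (h.pos w)).trans ?_
          have := hμ v
          have := h.pos v
          nlinarith
        have hk0 : 0 ≤ (x v - x w) * (x v + x w) ^ 2 :=
          mul_nonneg (by linarith) (sq_nonneg _)
        calc (θ + 1) * (x v ^ 2 - x w ^ 2) ^ 2
            = ((x v - x w) * (x v + x w) ^ 2) * ((θ + 1) * (x v - x w)) := by ring
          _ ≤ ((x v - x w) * (x v + x w) ^ 2) * ∑ u, cc a v u * (1 - cc a w u) * x u :=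
              mul_le_mul_of_nonneg_left hd hk0
          _ ≤ _ := mul_le_mul_of_nonneg_right hk hsum0
      · simp only [mul_zero]
        exact mul_nonneg (mul_nonneg (by positivity) (h.pos v).le) hsum0
    rw [mul_sum]
    refine (sum_le_sum fun v _ => step1 v).trans (le_of_eq ?_)
    have e1 : ∑ v, 32 / 27 * μ * x v * ∑ u, cc a v u * (1 - cc a w u) * x u
        = ∑ u, 32 / 27 * μ * ((1 - cc a w u) * x u * ∑ v, cc a u v * x v) := by
      simp_rw [mul_sum]
      rw [sum_comm]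
      refine sum_congr rfl fun u _ => sum_congr rfl fun v _ => ?_
      rw [h.cc_symm u v]; ring
    rw [e1]
    simp_rw [h.cc_eig]
    have e2 : ∀ u, 32 / 27 * μ * ((1 - cc a w u) * x u * ((θ + 1) * x u))
        = (θ + 1) * (32 / 27 * μ) * (x u ^ 2 - cc a w u * x u ^ 2) := fun u => by ring
    simp_rw [e2]
    rw [← mul_sum, sum_sub_distrib, h.unit, cc_y]
    ring
  exact le_of_mul_le_mul_left key hlam

lemma pair_sum (h : Dat a x θ) :
    ∑ w, ∑ v, (if x w < x v then (x v ^ 2 - x w ^ 2) ^ 2 else 0)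
      = Fintype.card V * S x - 1 := by
  have e1 : ∑ w, ∑ v, (if x v < x w then (x v ^ 2 - x w ^ 2) ^ 2 else 0)
      = ∑ w, ∑ v, (if x w < x v then (x v ^ 2 - x w ^ 2) ^ 2 else 0) := by
    rw [sum_comm]
    refine sum_congr rfl fun w _ => sum_congr rfl fun v _ => ?_
    split_ifs <;> ring
  have e2 : ∑ w, ∑ v, (x v ^ 2 - x w ^ 2) ^ 2
      = ∑ w, ∑ v, (if x w < x v then (x v ^ 2 - x w ^ 2) ^ 2 else 0)
        + ∑ w, ∑ v, (if x v < x w then (x v ^ 2 - x w ^ 2) ^ 2 else 0) := by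
    simp_rw [← sum_add_distrib]
    refine sum_congr rfl fun w _ => sum_congr rfl fun v _ => ?_
    rcases lt_trichotomy (x w) (x v) with hh | hh | hh
    · simp [hh, hh.le.not_gt]
    · simp [hh]
    · simp [hh, hh.le.not_gt]
  have e3 : ∑ w, ∑ v, (x v ^ 2 - x w ^ 2) ^ 2 = 2 * (Fintype.card V * S x) - 2 := by
    have : ∀ w, ∑ v, (x v ^ 2 - x w ^ 2) ^ 2
        = S x - 2 * x w ^ 2 + Fintype.card V * (x w ^ 2) ^ 2 := by
      intro w
      have e : ∀ v, (x v ^ 2 - x w ^ 2) ^ 2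
          = (x v ^ 2) ^ 2 - 2 * x w ^ 2 * x v ^ 2 + (x w ^ 2) ^ 2 := fun v => by ring
      simp_rw [e]
      rw [sum_add_distrib, sum_sub_distrib, ← mul_sum, h.unit]
      simp [S]
    simp_rw [this]
    rw [sum_add_distrib, sum_sub_distrib, ← mul_sum, ← mul_sum, h.unit]
    simp [S]
    ring
  rw [e1] at e2
  linarith

/-- `(I3)`: `D + 2 N S ≤ N (1 + 2/n)` when the largest entry is not too large. -/
lemma I3 (h : Dat a x θ) {μ : ℝ} (hμ : ∀ v, x v ^ 2 ≤ μ)
    (hn : 2 ≤ Fintype.card V)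
    (hb : 64 * ((Fintype.card V : ℝ) - 1) * μ ≤ 27 * Fintype.card V) :
    D a x + 2 * ((Fintype.card V : ℝ) - 1) * S x
      ≤ ((Fintype.card V : ℝ) - 1) * (1 + 2 / Fintype.card V) := by
  have h1 := sum_le_sum (s := (univ : Finset V)) fun w _ => h.local_ineq hμ w
  rw [h.pair_sum, ← mul_sum, sum_sub_distrib, sum_sub_distrib, h.unit, ← h.D_eq] at h1
  simp only [sum_const, card_univ, nsmul_eq_mul, mul_one] at h1
  have hD := h.D_pos_bound
  have hn' : (2 : ℝ) ≤ Fintype.card V := by exact_mod_cast hn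
  generalize (Fintype.card V : ℝ) = n at *
  -- 32/27 μ ≤ n / (2 N)
  have hN : 0 < n - 1 := by linarith
  have h2 : 2 * (n - 1) * (n * S x - 1) ≤ n * (n - 1 - D a x) := by
    have h3 : 2 * (n - 1) * (32 / 27 * μ * (n - 1 - D a x)) ≤ n * (n - 1 - D a x) := by
      have : 2 * (n - 1) * (32 / 27 * μ) ≤ n := by linarith
      nlinarith
    have h4 : 2 * (n - 1) * (n * S x - 1) ≤ 2 * (n - 1) * (32 / 27 * μ * (n - 1 - D a x)) :=
      mul_le_mul_of_nonneg_left h1 (by linarith)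
    linarith
  have hn0 : 0 < n := by linarith
  have e : (n - 1) * (1 + 2 / n) = (n - 1) * (n + 2) / n := by field_simp
  rw [e, le_div_iff₀ hn0]
  nlinarith

end Dat

end Pool.Agent.X8.AM
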