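import Pool.Agent.X8.AMComb3

namespace Pool.Agent.X8.AM

open Finset

variable {V : Type*} [Fintype V] [DecidableEq V]
variable {a : V → V → ℝ} {x : V → ℝ} {θ : ℝ}

namespace Dat

/-- If `2θ² > 2m` then some triangle through the largest vertex has its two other entries
summing to more than the largest one. -/
lemma exists_triangle (h : Dat a x θ) {c : V} (hc : ∀ v, x v ≤ x c)
    (hm : ∑ v, d a v < 2 * θ ^ 2) :
    ∃ u w, a c u = 1 ∧ a c w = 1 ∧ a u w = 1 ∧ x c < x u + x w := by
  by_contra hcon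
  push Not at hcon
  have hxc := h.pos c
  have e1 : θ ^ 2 * x c = ∑ u, ∑ z, a c u * a u z * x z := by
    have : θ ^ 2 * x c = θ * (θ * x c) := by ring
    rw [this, ← h.eig c, mul_sum]
    refine sum_congr rfl fun u _ => ?_
    have : θ * (a c u * x u) = a c u * (θ * x u) := by ring
    rw [this, ← h.eig u, mul_sum]
    exact sum_congr rfl fun z _ => by ring
  have e2 : ∑ u, ∑ z, a c u * a u z * x z = ∑ u, ∑ z, a c z * a u z * x u := by
    rw [sum_comm]
    refine sum_congr rfl fun u _ => sum_congr rfl fun z _ => ?_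
    rw [h.symm z u]
  have e3 : 2 * (θ ^ 2 * x c) = ∑ u, ∑ z, a u z * (a c u * x z + a c z * x u) := by
    have : 2 * (θ ^ 2 * x c) = ∑ u, ∑ z, a c u * a u z * x z + ∑ u, ∑ z, a c z * a u z * x u := by
      rw [← e2, ← e1]; ring
    rw [this]
    simp_rw [← sum_add_distrib]
    exact sum_congr rfl fun u _ => sum_congr rfl fun z _ => by ring
  have e4 : ∑ u, ∑ z, a u z * (a c u * x z + a c z * x u) ≤ ∑ u, ∑ z, a u z * x c := by
    refine sum_le_sum fun u _ => sum_le_sum fun z _ => ?_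
    rcases h.a01 u z with e | e
    · simp [e]
    · rw [e, one_mul, one_mul]
      rcases h.a01 c u with f | f <;> rcases h.a01 c z with g | g <;> rw [f, g]
      · simpa using hxc.le
      · simpa using hc u
      · simpa using hc z
      · have := hcon u z f g e
        linarith
  have e5 : ∑ u, ∑ z, a u z * x c = (∑ u, d a u) * x c := by
    simp_rw [← sum_mul]
    rfl
  rw [← e3, e5] at e4
  nlinarith

/-- mass estimate: under the hypotheses of `exists_triangle` the largest entry is small. -/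
lemma mass (h : Dat a x θ) {c : V} (hm : ∑ v, d a v < 2 * θ ^ 2) (hc : ∀ v, x v ≤ x c) :
    x c ^ 2 * (5 / 2 - 1 / θ) ≤ 1 := by
  obtain ⟨u, w, hu, hw, huw, hs⟩ := h.exists_triangle hc hm
  have hne : Nonempty V := ⟨c⟩
  have hθ := h.theta_pos
  have hθ1 : 1 ≤ θ := by
    have h1 := h.one_le_d c
    have h2 := h.d_le c
    nlinarith
  have huw' : u ≠ w := by rintro rfl; rw [h.irr] at huw; norm_num at huw
  have hcu : c ≠ u := by rintro rfl; rw [h.irr] at hu; norm_num at hu
  have hcw : c ≠ w := by rintro rfl; rw [h.irr] at hw; norm_num at hw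
  have hxc := h.pos c
  have hxu := h.pos u
  have hxw := h.pos w
  -- the set of the other neighbours
  -- degree bound
  have hdeg : θ * (x u + x w) - 2 * x c ≤ θ ^ 2 * x c - d a c * x c := by
    have e1 : θ ^ 2 * x c - d a c * x c = ∑ v, a c v * (θ * x v - x c) := by
      have : θ ^ 2 * x c = θ * (θ * x c) := by ring
      rw [this, ← h.eig c, mul_sum, d, sum_mul, ← sum_sub_distrib]
      exact sum_congr rfl fun v _ => by ring
    have e2 : ∑ v ∈ ({u, w} : Finset V), a c v * (θ * x v - x c)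
        ≤ ∑ v, a c v * (θ * x v - x c) := by
      refine sum_le_sum_of_subset_of_nonneg (subset_univ _) fun v _ _ => ?_
      have := h.a_mul_le c v
      linarith
    rw [sum_pair huw', hu, hw] at e2
    rw [e1]
    linarith
  -- Cauchy for the other neighbours
  set s := x u + x w with hs_def
  set p := θ * x c - s with hp_def
  set R := ∑ v ∈ (univ \ {c, u, w} : Finset V), x v ^ 2 with hR_def
  have hsub : ∑ v ∈ (univ \ {c, u, w} : Finset V), a c v * x v = p := by
    have e := h.eig c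
    rw [← sum_sdiff (subset_univ ({c, u, w} : Finset V))] at e
    rw [sum_insert (by simp [hcu, hcw]), sum_pair huw', hu, hw, h.irr] at e
    rw [hp_def, hs_def]; linarith
  have hsubd : ∑ v ∈ (univ \ {c, u, w} : Finset V), a c v = d a c - 2 := by
    have e : d a c = ∑ v, a c v := rfl
    rw [← sum_sdiff (subset_univ ({c, u, w} : Finset V))] at e
    rw [sum_insert (by simp [hcu, hcw]), sum_pair huw', hu, hw, h.irr] at e
    linarith
  have hp0 : 0 ≤ p := by
    rw [← hsub]
    exact sum_nonneg fun v _ => mul_nonneg (h.a_nonneg _ _) (h.pos _).le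
  have hCS : p ^ 2 ≤ (d a c - 2) * R := by
    have h1 := sum_mul_sq_le_sq_mul_sq (univ \ {c, u, w} : Finset V) (fun v => a c v)
      (fun v => x v)
    have e2 : ∑ v ∈ (univ \ {c, u, w} : Finset V), a c v ^ 2 = d a c - 2 := by
      rw [← hsubd]
      exact sum_congr rfl fun v _ => h.a_sq _ _
    rw [hsub, e2] at h1
    exact h1
  have hR0 : 0 ≤ R := sum_nonneg fun v _ => sq_nonneg _
  have hmass : x c ^ 2 + x u ^ 2 + x w ^ 2 + R = 1 := by
    have e := h.unit
    rw [← sum_sdiff (subset_univ ({c, u, w} : Finset V))] at e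
    rw [sum_insert (by simp [hcu, hcw]), sum_pair huw'] at e
    rw [hR_def]; linarith
  -- `(d - 2) x_c ≤ θ p`
  have hd2 : (d a c - 2) * x c ≤ θ * p := by
    rw [hp_def]; nlinarith
  -- `x_c p ≤ θ R`
  have hRp : x c * p ≤ θ * R := by
    rcases hp0.eq_or_lt with h0 | h0
    · rw [← h0]; simp; positivity
    · have h1 : x c * p ^ 2 ≤ θ * p * R := by
        calc x c * p ^ 2 ≤ x c * ((d a c - 2) * R) := mul_le_mul_of_nonneg_left hCS hxc.le
          _ = ((d a c - 2) * x c) * R := by ring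
          _ ≤ _ := mul_le_mul_of_nonneg_right hd2 hR0
      have h2 : (x c * p) * p ≤ (θ * R) * p := by nlinarith
      exact le_of_mul_le_mul_right h2 h0
  have hsq : s ^ 2 / 2 ≤ x u ^ 2 + x w ^ 2 := by
    rw [hs_def]; nlinarith [sq_nonneg (x u - x w)]
  -- combine
  have hfin : θ * (x c ^ 2 * (5 / 2)) - x c ^ 2 ≤ θ := by
    have h1 : θ * (x c ^ 2) + θ * (s ^ 2 / 2) + x c * p ≤ θ := by nlinarith
    have h2 : x c * p = θ * x c ^ 2 - x c * s := by rw [hp_def]; ring
    rw [h2] at h1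
    -- θ s²/2 - x_c s ≥ θ x_c²/2 - x_c²
    have h3 : 0 ≤ (s - x c) * (θ * (s + x c) / 2 - x c) := by
      refine mul_nonneg (by linarith) ?_
      nlinarith
    nlinarith
  have : x c ^ 2 * (5 / 2 - 1 / θ) = (θ * (x c ^ 2 * (5 / 2)) - x c ^ 2) / θ := by
    field_simp
  rw [this, div_le_one hθ]
  exact hfin

lemma small_or (h : Dat a x θ) (hn : 2 ≤ Fintype.card V) {c : V} (hc : ∀ v, x v ≤ x c) :
    64 * ((Fintype.card V : ℝ) - 1) * x c ^ 2 ≤ 27 * Fintype.card V ∨
      2 * θ ^ 2 ≤ ∑ v, d a v := by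
  rcases le_or_gt (2 * θ ^ 2) (∑ v, d a v) with h1 | h1
  · exact Or.inr h1
  left
  have hne : Nonempty V := ⟨c⟩
  have hθ := h.theta_pos
  have hθ1 : 1 ≤ θ := by
    have h1 := h.one_le_d c
    have h2 := h.d_le c
    nlinarith
  have h2 := h.mass h1 hc
  have h3 := h.hong
  have h4 : (Fintype.card V : ℝ) - 1 ≤ θ ^ 2 := by linarith
  have hn' : (2 : ℝ) ≤ Fintype.card V := by exact_mod_cast hn
  generalize (Fintype.card V : ℝ) = n at *
  have hpoly : 0 ≤ 27 * n * (5 * θ - 2) - 128 * (n - 1) * θ := by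
    have e : 27 * n * (5 * θ - 2) - 128 * (n - 1) * θ
        = (n - 1) * (7 * θ - 54) + (135 * θ - 54) := by ring
    rw [e]
    rcases le_or_gt 0 (7 * θ - 54) with h5 | h5
    · have : 0 ≤ (n - 1) * (7 * θ - 54) := mul_nonneg (by linarith) h5
      linarith
    · have h6 : θ ^ 2 * (7 * θ - 54) ≤ (n - 1) * (7 * θ - 54) := by nlinarith
      have h7 : θ ^ 2 * (7 * θ - 54) + (135 * θ - 54) = (θ - 3) ^ 2 * (7 * θ - 12) + 54 := by ring
      have h8 : 0 ≤ (θ - 3) ^ 2 * (7 * θ - 12) + 54 := by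
        rcases le_or_gt 0 (7 * θ - 12) with h9 | h9
        · positivity
        · have : (θ - 3) ^ 2 ≤ 4 := by nlinarith
          nlinarith [sq_nonneg (θ - 3)]
      linarith
  have hy : x c ^ 2 * (5 * θ - 2) ≤ 2 * θ := by
    have e : x c ^ 2 * (5 / 2 - 1 / θ) = x c ^ 2 * (5 * θ - 2) / (2 * θ) := by field_simp
    rw [e, div_le_one (by positivity)] at h2
    exact h2
  have h50 : 0 < 5 * θ - 2 := by linarith
  -- 64 (n-1) y (5θ-2) ≤ 128 (n-1) θ ≤ 27 n (5θ-2)
  have h10 : 64 * (n - 1) * x c ^ 2 * (5 * θ - 2) ≤ 27 * n * (5 * θ - 2) := by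
    have : 64 * (n - 1) * (x c ^ 2 * (5 * θ - 2)) ≤ 64 * (n - 1) * (2 * θ) :=
      mul_le_mul_of_nonneg_left hy (by linarith)
    linarith
  exact le_of_mul_le_mul_right h10 h50

lemma S_le_half (h : Dat a x θ) : S x ≤ 1 / 2 := by
  have : S x ≤ ∑ v, 1 / 2 * x v ^ 2 := by
    refine sum_le_sum fun v _ => ?_
    have : Nonempty V := ⟨v⟩
    have h1 := h.y_le_half v
    nlinarith [sq_nonneg (x v)]
  rw [← mul_sum, h.unit] at this
  linarith

/-- The key inequality `(I2)`: `D ≤ T (1 + 2/n - 2 S)`. -/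
theorem I2 (h : Dat a x θ) (hn : 2 ≤ Fintype.card V) :
    D a x ≤ (∑ v, d a v - θ ^ 2) * (1 + 2 / Fintype.card V - 2 * S x) := by
  have hne : Nonempty V := Fintype.card_pos_iff.mp (by omega)
  obtain ⟨c, hc⟩ := Finite.exists_max x
  have hhong := h.hong
  have hS := h.S_le_half
  have hn' : (2 : ℝ) ≤ Fintype.card V := by exact_mod_cast hn
  have hn0 : (0 : ℝ) < Fintype.card V := by linarith
  rcases h.small_or hn hc with h1 | h1
  · have hμ : ∀ v, x v ^ 2 ≤ x c ^ 2 := fun v => by
      have := h.pos v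
      have := hc v
      nlinarith
    have h2 := h.I3 hμ hn h1
    have h3 : 0 ≤ 1 + 2 / (Fintype.card V : ℝ) - 2 * S x := by
      have : 0 ≤ 2 / (Fintype.card V : ℝ) := by positivity
      linarith
    have h4 := mul_le_mul_of_nonneg_right hhong h3
    linarith
  · have h2 := h.I5
    have h3 : θ ^ 2 ≤ ∑ v, d a v - θ ^ 2 := by linarith
    have h4 : 1 ≤ (∑ v, d a v - θ ^ 2) * (2 / Fintype.card V) := by
      have : ((Fintype.card V : ℝ) - 1) * (2 / Fintype.card V)
          ≤ (∑ v, d a v - θ ^ 2) * (2 / Fintype.card V) :=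
        mul_le_mul_of_nonneg_right hhong (by positivity)
      refine le_trans ?_ this
      rw [mul_div_assoc', le_div_iff₀ hn0]
      linarith
    have h5 : θ ^ 2 * (1 - 2 * S x) ≤ (∑ v, d a v - θ ^ 2) * (1 - 2 * S x) :=
      mul_le_mul_of_nonneg_right h3 (by linarith)
    have e : (∑ v, d a v - θ ^ 2) * (1 + 2 / Fintype.card V - 2 * S x)
        = (∑ v, d a v - θ ^ 2) * (1 - 2 * S x)
          + (∑ v, d a v - θ ^ 2) * (2 / Fintype.card V) := by ring
    rw [e]
    linarith

end Dat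

end Pool.Agent.X8.AM
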