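import Pool.Agent.X8.AMSpec

namespace Pool.Agent.X8.AM

open Finset
open scoped RealInnerProductSpace

variable {V : Type*} [Fintype V] [DecidableEq V]

section perron

variable (G : SimpleGraph V) [DecidableRel G.Adj]

/-- 0/1 adjacency function -/
def adj (v w : V) : ℝ := if G.Adj v w then 1 else 0

lemma toEuc_apply (z : EuclideanSpace ℝ V) (v : V) :
    (Matrix.toEuclideanLin (G.adjMatrix ℝ) z) v = ∑ w, adj G v w * z w := by
  simp [Matrix.toEuclideanLin_apply, Matrix.mulVec, dotProduct, adj, SimpleGraph.adjMatrix_apply]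

lemma adj_symm (v w : V) : adj G v w = adj G w v := by
  simp [adj, G.adj_comm]

lemma adj_nonneg (v w : V) : 0 ≤ adj G v w := by unfold adj; split_ifs <;> norm_num

/-- A nonnegative eigenvector with a zero entry vanishes (connected graphs). -/
lemma zero_of_zero (hG : G.Connected) {z : V → ℝ} {θ : ℝ} (hz0 : ∀ v, 0 ≤ z v)
    (hz : ∀ v, ∑ w, adj G v w * z w = θ * z v) {v : V} (hv : z v = 0) : ∀ w, z w = 0 := by
  have hstep : ∀ u w, z u = 0 → G.Adj u w → z w = 0 := by
    intro u w hu huw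
    have h1 := hz u
    rw [hu, mul_zero] at h1
    have h2 := (sum_eq_zero_iff_of_nonneg
      (fun w _ => mul_nonneg (adj_nonneg G u w) (hz0 w))).mp h1 w (mem_univ w)
    simpa [adj, huw] using h2
  intro w
  obtain ⟨p⟩ := hG.preconnected v w
  induction p with
  | nil => exact hv
  | cons hadj p ih => exact ih (hstep _ _ hv hadj)

/-- Eigenvectors for the eigenvalue of a positive eigenvector are multiples of it. -/
lemma simple_of_pos (hG : G.Connected) {x z : V → ℝ} {θ : ℝ} (hx0 : ∀ v, 0 < x v)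
    (hx : ∀ v, ∑ w, adj G v w * x w = θ * x v)
    (hz : ∀ v, ∑ w, adj G v w * z w = θ * z v) : ∃ t : ℝ, ∀ v, z v = t * x v := by
  have hne : Nonempty V := hG.nonempty
  obtain ⟨c, hc⟩ := Finite.exists_max (fun v => z v / x v)
  refine ⟨z c / x c, ?_⟩
  set t := z c / x c with ht
  have h0 : ∀ v, 0 ≤ t * x v - z v := by
    intro v
    have h1 := hc v
    rw [div_le_iff₀ (hx0 v)] at h1
    linarith
  have h1 : ∀ v, ∑ w, adj G v w * (t * x w - z w) = θ * (t * x v - z v) := by
    intro v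
    have e : ∑ w, adj G v w * (t * x w - z w)
        = t * ∑ w, adj G v w * x w - ∑ w, adj G v w * z w := by
      rw [mul_sum, ← sum_sub_distrib]
      exact sum_congr rfl fun w _ => by ring
    rw [e, hx, hz]; ring
  have h2 : t * x c - z c = 0 := by
    rw [ht]; have := (hx0 c).ne'; field_simp; ring
  intro v
  have := zero_of_zero G hG h0 h1 h2 v
  linarith

end perron

section main

variable (G : SimpleGraph V) [DecidableRel G.Adj]

/-- Perron vector taken from an eigenbasis. -/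
lemma exists_perron (hG : G.Connected) (hcard : 2 ≤ Fintype.card V)
    (b : OrthonormalBasis V ℝ (EuclideanSpace ℝ V)) (ev : V → ℝ)
    (hb : ∀ i, Matrix.toEuclideanLin (G.adjMatrix ℝ) (b i) = ev i • b i) :
    ∃ (i0 : V) (x : V → ℝ), Dat (adj G) x (ev i0) ∧ (∀ v, (b i0 v) ^ 2 = x v ^ 2) ∧
      ∀ i, i ≠ i0 → ev i ≠ ev i0 := by
  have hne : Nonempty V := hG.nonempty
  have hA : (G.adjMatrix ℝ).IsHermitian := by
    rw [Matrix.IsHermitian, Matrix.conjTranspose_eq_transpose_of_trivial]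
    exact SimpleGraph.transpose_adjMatrix G
  obtain ⟨i0, hi0⟩ := Finite.exists_max ev
  set θ := ev i0 with hθ
  set A := Matrix.toEuclideanLin (G.adjMatrix ℝ) with hAdef
  -- eigen-equation for basis vectors
  have hbe : ∀ i v, ∑ w, adj G v w * b i w = ev i * b i v := by
    intro i v
    rw [← toEuc_apply, hb i]; simp
  set x : EuclideanSpace ℝ V := WithLp.toLp 2 (fun v => |b i0 v|) with hx
  have hxv : ∀ v, x v = |b i0 v| := fun v => rfl
  -- quadratic form bound
  have hquad : ∀ y : EuclideanSpace ℝ V,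
      θ * ⟪y, y⟫ - ⟪y, A y⟫ = ∑ i, (θ - ev i) * ⟪b i, y⟫ ^ 2 := by
    intro y
    have h1 := b.sum_inner_mul_inner y y
    have h2 := b.sum_inner_mul_inner y (A y)
    rw [← h1, ← h2, mul_sum, ← sum_sub_distrib]
    refine sum_congr rfl fun i _ => ?_
    have : ⟪b i, A y⟫ = ev i * ⟪b i, y⟫ := by
      rw [hAdef, ← symm_inner hA, ← hAdef, hb i, inner_smul_left]; simp
    rw [this, real_inner_comm (b i) y]; ring
  have hxx : ⟪x, x⟫ = ⟪b i0, b i0⟫ := by
    rw [PiLp.inner_apply, PiLp.inner_apply]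
    refine sum_congr rfl fun v _ => ?_
    simp [hxv]
  have hxAx : ⟪b i0, A (b i0)⟫ ≤ ⟪x, A x⟫ := by
    rw [PiLp.inner_apply, PiLp.inner_apply]
    refine sum_le_sum fun v _ => ?_
    simp only [hAdef, toEuc_apply, hxv, RCLike.inner_apply, conj_trivial]
    rw [sum_mul, sum_mul]
    refine sum_le_sum fun w _ => ?_
    have h1 := adj_nonneg G v w
    have h2 : b i0 w * b i0 v ≤ |b i0 w| * |b i0 v| := by
      rw [← abs_mul]; exact le_abs_self _
    nlinarith
  have hz0 : ⟪b i0, A (b i0)⟫ = θ * ⟪b i0, b i0⟫ := by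
    rw [hb i0, inner_smul_right]
  have hsum0 : ∑ i, (θ - ev i) * ⟪b i, x⟫ ^ 2 ≤ 0 := by
    rw [← hquad x, hxx]; linarith
  have hterm : ∀ i, (θ - ev i) * ⟪b i, x⟫ ^ 2 = 0 := by
    have hnn : ∀ i ∈ (univ : Finset V), 0 ≤ (θ - ev i) * ⟪b i, x⟫ ^ 2 := fun i _ =>
      mul_nonneg (by linarith [hi0 i]) (sq_nonneg _)
    have := (sum_eq_zero_iff_of_nonneg hnn).mp (le_antisymm hsum0 (sum_nonneg hnn))
    exact fun i => this i (mem_univ i)
  have hAx : A x = θ • x := by
    have h1 : ∀ i, ⟪b i, A x⟫ = ⟪b i, θ • x⟫ := by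
      intro i
      have : ⟪b i, A x⟫ = ev i * ⟪b i, x⟫ := by
        rw [hAdef, ← symm_inner hA, ← hAdef, hb i, inner_smul_left]; simp
      rw [this, inner_smul_right]
      rcases mul_eq_zero.mp (hterm i) with h | h
      · have : ev i = θ := by linarith
        rw [this]
      · rw [pow_eq_zero_iff (by norm_num)] at h
        rw [h]; ring
    rw [← b.sum_repr' (A x), ← b.sum_repr' (θ • x)]
    exact sum_congr rfl fun i _ => by rw [h1 i]
  have hxe : ∀ v, ∑ w, adj G v w * x w = θ * x v := by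
    intro v
    rw [← toEuc_apply, ← hAdef, hAx]; simp
  have hx1 : ∑ v, x v ^ 2 = 1 := by
    have := sum_vert b i0
    rw [← this]
    refine sum_congr rfl fun v _ => by rw [hxv, sq_abs]
  have hxpos : ∀ v, 0 < x v := by
    intro v
    rcases (show 0 ≤ x v by rw [hxv]; exact abs_nonneg _).eq_or_lt with h | h
    · exfalso
      have := zero_of_zero G hG (z := fun v => x v) (fun v => by
        show 0 ≤ x v
        rw [hxv]; exact abs_nonneg _) hxe h.symm
      simp [this] at hx1
    · exact h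
  refine ⟨i0, fun v => x v, ?_, fun v => by
      show (b i0 v) ^ 2 = (x v) ^ 2
      rw [hxv, sq_abs], ?_⟩
  · refine ⟨fun v w => by unfold adj; split_ifs <;> simp, adj_symm G, fun v => by simp [adj],
      hxpos, hx1, hxe, ?_⟩
    intro v
    have : Nontrivial V := Fintype.one_lt_card_iff_nontrivial.mp (by omega)
    obtain ⟨w, hw⟩ := hG.preconnected.exists_adj_of_nontrivial v
    exact ⟨w, by simp [adj, hw]⟩
  · intro i hi he
    obtain ⟨t, ht⟩ := simple_of_pos G hG hxpos hxe (z := fun v => b i v)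
      (fun v => by rw [hbe i v, he])
    obtain ⟨t0, ht0⟩ := simple_of_pos G hG hxpos hxe (z := fun v => b i0 v)
      (fun v => hbe i0 v)
    have horth : ⟪b i, b i0⟫ = (0 : ℝ) := b.orthonormal.2 hi
    rw [PiLp.inner_apply] at horth
    have e : ∑ v, ⟪b i v, b i0 v⟫ = t * t0 := by
      have : ∀ v, ⟪b i v, b i0 v⟫ = t * t0 * x v ^ 2 := by
        intro v
        have h1 := ht v
        have h2 := ht0 v
        simp only at h1 h2
        simp only [RCLike.inner_apply, conj_trivial]
        rw [h1, h2]; ring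
      simp_rw [this]
      rw [← mul_sum, hx1, mul_one]
    rw [e] at horth
    rcases mul_eq_zero.mp horth with h | h
    · have := sum_vert b i
      simp only [h, zero_mul] at ht
      simp [ht] at this
    · have := sum_vert b i0
      simp only [h, zero_mul] at ht0
      simp [ht0] at this

lemma adj_hermitian : (G.adjMatrix ℝ).IsHermitian := by
  rw [Matrix.IsHermitian, Matrix.conjTranspose_eq_transpose_of_trivial]
  simp

omit [DecidableRel G.Adj] in
lemma exists_basis (A : Matrix V V ℝ) (hA : A.IsHermitian) :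
    ∃ (b : OrthonormalBasis V ℝ (EuclideanSpace ℝ V)) (ev : V → ℝ),
      ∀ i, Matrix.toEuclideanLin A (b i) = ev i • b i := by
  refine ⟨hA.eigenvectorBasis, hA.eigenvalues, fun i => ?_⟩
  have h := hA.mulVec_eigenvectorBasis i
  ext v
  rw [Matrix.toEuclideanLin_apply]
  simp only [WithLp.ofLp_smul]
  rw [h]

/-- splitting off the simple eigenvalue -/
lemma split_sum {ev : V → ℝ} {i0 : V} (hsimple : ∀ i, i ≠ i0 → ev i ≠ ev i0) (w : V → ℝ) :
    (∑ i, ∑ j, if ev i = ev j then w i * w j else 0)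
      = w i0 ^ 2 + ∑ i ∈ univ.erase i0, ∑ j ∈ univ.erase i0,
          if ev i = ev j then w i * w j else 0 := by
  rw [← add_sum_erase univ _ (mem_univ i0)]
  congr 1
  · rw [← add_sum_erase univ _ (mem_univ i0)]
    have : ∑ j ∈ univ.erase i0, (if ev i0 = ev j then w i0 * w j else 0) = 0 := by
      refine sum_eq_zero fun j hj => ?_
      rw [if_neg]
      exact fun h => hsimple j (ne_of_mem_erase hj) h.symm
    rw [this]; simp [sq]
  · refine sum_congr rfl fun i hi => ?_
    rw [← add_sum_erase univ _ (mem_univ i0), if_neg (hsimple i (ne_of_mem_erase hi)), zero_add]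

theorem main_ge2 (hG : G.Connected) (hcard : 2 ≤ Fintype.card V) :
    (avgMixing (G.adjMatrix ℝ)).trace
      ≤ (Fintype.card V : ℝ) - 2 + 2 / Fintype.card V := by
  have hA := adj_hermitian G
  obtain ⟨b, ev, hb⟩ := exists_basis _ hA
  obtain ⟨i0, x, hD, hx, hsimple⟩ := exists_perron G hG hcard b ev hb
  rw [trace_avg b ev hA hb]
  set θ := ev i0 with hθ
  set T := ∑ v, Dat.d (adj G) v - θ ^ 2 with hT
  -- second moments
  have hAsq : ∀ v, ∑ u, (G.adjMatrix ℝ u v) ^ 2 = Dat.d (adj G) v := by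
    intro v
    refine sum_congr rfl fun u _ => ?_
    simp only [SimpleGraph.adjMatrix_apply, adj, G.adj_comm v u]
    split_ifs <;> norm_num
  have hm2 : ∀ v, ∑ i, ev i ^ 2 * (b i v) ^ 2 = Dat.d (adj G) v := fun v => by
    rw [sum_ev_sq b ev hA hb, hAsq]
  have hm1 : ∀ v, ∑ i, ev i * (b i v) ^ 2 = 0 := fun v => by
    rw [sum_ev b ev hA hb]; simp
  have hm0 : ∀ v, ∑ i, (b i v) ^ 2 = 1 := fun v => sum_sq_one b v
  have hTsum : ∑ i ∈ univ.erase i0, ev i ^ 2 = T := by
    have e1 : ∑ i, ev i ^ 2 = ∑ v, Dat.d (adj G) v := by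
      simp_rw [← hm2]
      rw [sum_comm]
      refine sum_congr rfl fun i _ => ?_
      rw [← mul_sum, sum_vert, mul_one]
    rw [← add_sum_erase univ _ (mem_univ i0)] at e1
    rw [hT, ← e1]; ring
  have hTpos : 0 < T := by
    have h1 := hD.hong
    have : (2 : ℝ) ≤ Fintype.card V := by exact_mod_cast hcard
    linarith
  -- per pair
  have hpair : ∀ i ∈ univ.erase i0, ∀ j ∈ univ.erase i0, ev i ≠ ev j →
      (ev i - ev j) ^ 2 ≤ 2 * T := by
    intro i hi j hj hij
    have hne : i ≠ j := fun h => hij (by rw [h])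
    have h1 : ev i ^ 2 + ev j ^ 2 ≤ T := by
      rw [← hTsum, ← sum_pair (f := fun k => ev k ^ 2) hne]
      refine sum_le_sum_of_subset_of_nonneg ?_ fun _ _ _ => sq_nonneg _
      intro k hk
      rcases mem_insert.mp hk with rfl | hk
      · exact hi
      · rw [mem_singleton] at hk; rw [hk]; exact hj
    nlinarith [sq_nonneg (ev i + ev j)]
  -- per vertex
  have hvert : ∀ v, T * (∑ i, ∑ j, if ev i = ev j then (b i v) ^ 2 * (b j v) ^ 2 else 0)
      ≤ T * (1 - 2 * x v ^ 2 + 2 * (x v ^ 2) ^ 2) - Dat.d (adj G) v * (1 - x v ^ 2)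
        + θ ^ 2 * x v ^ 2 := by
    intro v
    have hs := split_sum hsimple (fun i => (b i v) ^ 2)
    simp only at hs
    rw [hs, hx v]
    set w : V → ℝ := fun i => (b i v) ^ 2 with hw
    have hw0 : ∀ i, 0 ≤ w i := fun i => sq_nonneg _
    have s0 : ∑ i ∈ univ.erase i0, w i = 1 - x v ^ 2 := by
      have := hm0 v
      rw [← add_sum_erase univ _ (mem_univ i0), hx v] at this
      linarith
    have s1 : ∑ i ∈ univ.erase i0, ev i * w i = - θ * x v ^ 2 := by
      have := hm1 v
      rw [← add_sum_erase univ _ (mem_univ i0), hx v] at this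
      linarith
    have s2 : ∑ i ∈ univ.erase i0, ev i ^ 2 * w i = Dat.d (adj G) v - θ ^ 2 * x v ^ 2 := by
      have := hm2 v
      rw [← add_sum_erase univ _ (mem_univ i0), hx v] at this
      linarith
    have h1 : ∑ i ∈ univ.erase i0, ∑ j ∈ univ.erase i0,
        2 * T * (if ev i = ev j then w i * w j else 0)
        ≤ ∑ i ∈ univ.erase i0, ∑ j ∈ univ.erase i0,
          (2 * T - (ev i - ev j) ^ 2) * (w i * w j) := by
      refine sum_le_sum fun i hi => sum_le_sum fun j hj => ?_
      have hww : 0 ≤ w i * w j := mul_nonneg (hw0 i) (hw0 j)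
      split_ifs with h
      · rw [h]; simp
      · have := hpair i hi j hj h
        rw [mul_zero]
        exact mul_nonneg (by linarith) hww
    have h2 : ∑ i ∈ univ.erase i0, ∑ j ∈ univ.erase i0,
          (2 * T - (ev i - ev j) ^ 2) * (w i * w j)
        = 2 * T * ((∑ i ∈ univ.erase i0, w i) * (∑ i ∈ univ.erase i0, w i))
          - 2 * ((∑ i ∈ univ.erase i0, ev i ^ 2 * w i) * (∑ i ∈ univ.erase i0, w i))
          + 2 * ((∑ i ∈ univ.erase i0, ev i * w i) * (∑ i ∈ univ.erase i0, ev i * w i)) := by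
      have e3 : (∑ i ∈ univ.erase i0, ev i ^ 2 * w i) * (∑ i ∈ univ.erase i0, w i)
          = (∑ i ∈ univ.erase i0, w i) * (∑ i ∈ univ.erase i0, ev i ^ 2 * w i) := mul_comm _ _
      have e4 : 2 * ((∑ i ∈ univ.erase i0, ev i ^ 2 * w i) * (∑ i ∈ univ.erase i0, w i))
          = (∑ i ∈ univ.erase i0, ev i ^ 2 * w i) * (∑ i ∈ univ.erase i0, w i)
            + (∑ i ∈ univ.erase i0, w i) * (∑ i ∈ univ.erase i0, ev i ^ 2 * w i) := by
        rw [← e3]; ring
      rw [e4, sum_mul_sum, sum_mul_sum, sum_mul_sum, sum_mul_sum, mul_sum, mul_sum,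
        ← sum_add_distrib, ← sum_sub_distrib, ← sum_add_distrib]
      refine sum_congr rfl fun i _ => ?_
      rw [mul_sum, mul_sum, ← sum_add_distrib, ← sum_sub_distrib, ← sum_add_distrib]
      exact sum_congr rfl fun j _ => by ring
    rw [h2, s0, s1, s2] at h1
    have h3 : ∑ i ∈ univ.erase i0, ∑ j ∈ univ.erase i0,
        2 * T * (if ev i = ev j then w i * w j else 0)
        = 2 * T * ∑ i ∈ univ.erase i0, ∑ j ∈ univ.erase i0,
          (if ev i = ev j then w i * w j else 0) := by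
      simp_rw [mul_sum]
    rw [h3] at h1
    nlinarith
  -- sum over vertices
  have hsum := sum_le_sum (s := (univ : Finset V)) fun v _ => hvert v
  rw [← mul_sum] at hsum
  have hrhs : ∑ v, (T * (1 - 2 * x v ^ 2 + 2 * (x v ^ 2) ^ 2) - Dat.d (adj G) v * (1 - x v ^ 2)
        + θ ^ 2 * x v ^ 2)
      = T * (Fintype.card V - 2 + 2 * Dat.S x) - T + Dat.D (adj G) x := by
    have e1 : ∀ v, T * (1 - 2 * x v ^ 2 + 2 * (x v ^ 2) ^ 2) - Dat.d (adj G) v * (1 - x v ^ 2)
        + θ ^ 2 * x v ^ 2 = T - (2 * T - θ ^ 2) * x v ^ 2 + 2 * T * (x v ^ 2) ^ 2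
          - Dat.d (adj G) v + Dat.d (adj G) v * x v ^ 2 := fun v => by ring
    simp_rw [e1]
    rw [sum_add_distrib, sum_sub_distrib, sum_add_distrib, sum_sub_distrib, ← mul_sum,
      ← mul_sum, hD.unit]
    have e2 : ∑ v, Dat.d (adj G) v = T + θ ^ 2 := by rw [hT]; ring
    rw [e2]
    simp only [sum_const, card_univ, nsmul_eq_mul, Dat.S, Dat.D]
    ring
  rw [hrhs] at hsum
  have hI2 := hD.I2 hcard
  rw [← hT] at hI2
  have hfin : T * (∑ v, ∑ i, ∑ j, if ev i = ev j then (b i v) ^ 2 * (b j v) ^ 2 else 0)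
      ≤ T * ((Fintype.card V : ℝ) - 2 + 2 / Fintype.card V) := by
    refine hsum.trans ?_
    nlinarith
  exact le_of_mul_le_mul_left hfin hTpos

end main

end Pool.Agent.X8.AM
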