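import Pool.Agent.X8.AMComb4

namespace Pool.Agent.X8.AM

open Finset
open scoped RealInnerProductSpace

variable {V : Type*} [Fintype V] [DecidableEq V]

/-- The matrix (in the standard basis) of the orthogonal projection of Euclidean space `ℝ^V` onto
the `μ`-eigenspace of `A`. -/
noncomputable def eigProj (A : Matrix V V ℝ) (μ : ℝ) : Matrix V V ℝ :=
  fun u v => ((Module.End.eigenspace (Matrix.toEuclideanLin A) μ).starProjection
    (EuclideanSpace.single v (1 : ℝ))) u

/-- The average mixing matrix `∑_r E_r ∘ E_r`, the sum being over the distinct eigenvalues of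
`A`. -/
noncomputable def avgMixing (A : Matrix V V ℝ) : Matrix V V ℝ :=
  ∑ μ ∈ (Module.End.finite_hasEigenvalue (Matrix.toEuclideanLin A)).toFinset,
    Matrix.hadamard (eigProj A μ) (eigProj A μ)

section basis

variable {A : Matrix V V ℝ} (b : OrthonormalBasis V ℝ (EuclideanSpace ℝ V)) (ev : V → ℝ)

lemma inner_single_right' (z : EuclideanSpace ℝ V) (v : V) :
    ⟪z, EuclideanSpace.single v (1 : ℝ)⟫ = z v := by
  simp [EuclideanSpace.inner_single_right]

lemma inner_single_left' (z : EuclideanSpace ℝ V) (v : V) :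
    ⟪EuclideanSpace.single v (1 : ℝ), z⟫ = z v := by
  simp [EuclideanSpace.inner_single_left]

lemma symm_inner (hA : A.IsHermitian) (y z : EuclideanSpace ℝ V) :
    ⟪Matrix.toEuclideanLin A y, z⟫ = ⟪y, Matrix.toEuclideanLin A z⟫ :=
  (Matrix.isSymmetric_toEuclideanLin_iff.mpr hA) y z

lemma toEuc_single (v u : V) :
    (Matrix.toEuclideanLin A (EuclideanSpace.single v (1 : ℝ))) u = A u v := by
  simp [Matrix.toEuclideanLin_apply, Matrix.mulVec, dotProduct]

/-- diagonal entries of the eigenprojections -/
lemma eigProj_diag (hA : A.IsHermitian)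
    (hb : ∀ i, Matrix.toEuclideanLin A (b i) = ev i • b i) (μ : ℝ) (v : V) :
    eigProj A μ v v = ∑ i, if ev i = μ then (b i v) ^ 2 else 0 := by
  set K := Module.End.eigenspace (Matrix.toEuclideanLin A) μ with hK
  set z : EuclideanSpace ℝ V := ∑ i, if ev i = μ then (b i v) • b i else 0 with hz
  have hzK : z ∈ K := by
    refine Submodule.sum_mem _ fun i _ => ?_
    split_ifs with h
    · refine Submodule.smul_mem _ _ ?_
      rw [hK, Module.End.mem_eigenspace_iff, hb i, h]
    · exact Submodule.zero_mem _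
  have hrepr : EuclideanSpace.single v (1 : ℝ) = ∑ i, (b i v) • b i := by
    have := b.sum_repr' (EuclideanSpace.single v (1 : ℝ))
    conv_lhs => rw [← this]
    refine sum_congr rfl fun i _ => ?_
    rw [inner_single_right']
  have hort : EuclideanSpace.single v (1 : ℝ) - z ∈ Kᗮ := by
    have e : EuclideanSpace.single v (1 : ℝ) - z
        = ∑ i, if ev i = μ then 0 else (b i v) • b i := by
      rw [hz, hrepr, ← sum_sub_distrib]
      refine sum_congr rfl fun i _ => ?_
      split_ifs <;> simp
    rw [e]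
    refine Submodule.sum_mem _ fun i _ => ?_
    split_ifs with h
    · exact Submodule.zero_mem _
    · refine Submodule.smul_mem _ _ ?_
      rw [Submodule.mem_orthogonal]
      intro k hk
      rw [hK, Module.End.mem_eigenspace_iff] at hk
      have h1 := symm_inner hA k (b i)
      rw [hk, hb i, inner_smul_left, inner_smul_right] at h1
      simp only [conj_trivial] at h1
      have h2 : (μ - ev i) * ⟪k, b i⟫ = 0 := by linarith
      rcases mul_eq_zero.mp h2 with h3 | h3
      · exact absurd (by linarith : ev i = μ) h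
      · exact h3
  have hp : K.starProjection (EuclideanSpace.single v (1 : ℝ)) = z :=
    (Submodule.eq_starProjection_of_mem_orthogonal hzK hort)
  show (K.starProjection (EuclideanSpace.single v (1 : ℝ))) v = _
  rw [hp, hz]
  simp only [WithLp.ofLp_sum, Finset.sum_apply]
  refine sum_congr rfl fun i _ => ?_
  split_ifs
  · simp [sq]
  · simp

lemma sum_sq_one (v : V) : ∑ i, (b i v) ^ 2 = 1 := by
  have h := b.sum_inner_mul_inner (EuclideanSpace.single v (1 : ℝ)) (EuclideanSpace.single v (1 : ℝ))
  simp only [inner_single_left', inner_single_right'] at h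
  simp only [sq]
  rw [h]; simp

lemma sum_ev (hA : A.IsHermitian)
    (hb : ∀ i, Matrix.toEuclideanLin A (b i) = ev i • b i) (v : V) :
    ∑ i, ev i * (b i v) ^ 2 = A v v := by
  have h := b.sum_inner_mul_inner (EuclideanSpace.single v (1 : ℝ))
    (Matrix.toEuclideanLin A (EuclideanSpace.single v (1 : ℝ)))
  simp only [inner_single_left', ← symm_inner hA, hb, inner_smul_left, conj_trivial,
    inner_single_right', toEuc_single] at h
  rw [← h]
  exact sum_congr rfl fun i _ => by ring

lemma sum_ev_sq (hA : A.IsHermitian)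
    (hb : ∀ i, Matrix.toEuclideanLin A (b i) = ev i • b i) (v : V) :
    ∑ i, ev i ^ 2 * (b i v) ^ 2 = ∑ u, (A u v) ^ 2 := by
  have h := b.sum_inner_mul_inner (Matrix.toEuclideanLin A (EuclideanSpace.single v (1 : ℝ)))
    (Matrix.toEuclideanLin A (EuclideanSpace.single v (1 : ℝ)))
  have e1 : ∀ i, ⟪b i, Matrix.toEuclideanLin A (EuclideanSpace.single v (1 : ℝ))⟫ = ev i * b i v := by
    intro i
    rw [← symm_inner hA, hb, inner_smul_left, inner_single_right']
    simp
  have e2 : ∀ i, ⟪Matrix.toEuclideanLin A (EuclideanSpace.single v (1 : ℝ)), b i⟫ = ev i * b i v := by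
    intro i
    rw [real_inner_comm]; exact e1 i
  simp only [e1, e2] at h
  have e3 : ⟪Matrix.toEuclideanLin A (EuclideanSpace.single v (1 : ℝ)),
      Matrix.toEuclideanLin A (EuclideanSpace.single v (1 : ℝ))⟫ = ∑ u, (A u v) ^ 2 := by
    rw [PiLp.inner_apply]
    refine sum_congr rfl fun u _ => ?_
    rw [toEuc_single]; simp [sq]
  rw [← e3, ← h]
  exact sum_congr rfl fun i _ => by ring

lemma sum_vert (i : V) : ∑ v, (b i v) ^ 2 = 1 := by
  have h := b.orthonormal.1 i
  have h2 : ⟪b i, b i⟫ = (1 : ℝ) := by rw [real_inner_self_eq_norm_sq, h]; norm_num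
  rw [PiLp.inner_apply] at h2
  rw [← h2]
  refine sum_congr rfl fun u _ => by simp [sq]

/-- The trace in terms of an eigenbasis. -/
lemma trace_avg (hA : A.IsHermitian)
    (hb : ∀ i, Matrix.toEuclideanLin A (b i) = ev i • b i) :
    (avgMixing A).trace
      = ∑ v, ∑ i, ∑ j, if ev i = ev j then (b i v) ^ 2 * (b j v) ^ 2 else 0 := by
  set s := (Module.End.finite_hasEigenvalue (Matrix.toEuclideanLin A)).toFinset with hs
  have hmem : ∀ i, ev i ∈ s := by
    intro i
    rw [hs, Set.Finite.mem_toFinset]
    show Module.End.HasEigenvalue _ _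
    refine Module.End.hasEigenvalue_of_hasEigenvector (x := b i) ?_
    rw [Module.End.hasEigenvector_iff, Module.End.mem_eigenspace_iff]
    exact ⟨hb i, b.orthonormal.ne_zero i⟩
  unfold Matrix.trace
  refine sum_congr rfl fun v _ => ?_
  rw [Matrix.diag_apply, avgMixing, Matrix.sum_apply]
  simp only [Matrix.hadamard_apply, eigProj_diag b ev hA hb]
  have e : ∀ μ : ℝ, (∑ i, if ev i = μ then (b i v) ^ 2 else 0)
        * (∑ i, if ev i = μ then (b i v) ^ 2 else 0)
      = ∑ i, ∑ j, if ev i = μ then (if ev i = ev j then (b i v) ^ 2 * (b j v) ^ 2 else 0) else 0 := by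
    intro μ
    rw [sum_mul_sum]
    refine sum_congr rfl fun i _ => sum_congr rfl fun j _ => ?_
    by_cases h1 : ev i = μ
    · by_cases h2 : ev j = μ
      · simp [h1, h2]
      · simp [h1, h2, Ne.symm h2]
    · simp [h1]
  rw [← hs]
  simp_rw [e]
  rw [sum_comm]
  refine sum_congr rfl fun i _ => ?_
  rw [sum_comm]
  refine sum_congr rfl fun j _ => ?_
  rw [sum_ite_eq]
  simp [hmem i]

end basis

end Pool.Agent.X8.AM
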