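import Pool.Agent.X8.AMMain

namespace Pool.Agent.X8.AM

open Finset
open scoped RealInnerProductSpace

variable {V : Type*} [Fintype V] [DecidableEq V]

lemma trace_card_one (A : Matrix V V ℝ) (hA : A.IsHermitian) (h1 : Fintype.card V = 1) :
    (avgMixing A).trace = 1 := by
  obtain ⟨b, ev, hb⟩ := exists_basis _ hA
  rw [trace_avg b ev hA hb]
  obtain ⟨c, hc⟩ := Fintype.card_eq_one_iff.mp h1
  have hu : (univ : Finset V) = {c} := by
    ext v; simp [hc v]
  have h := sum_sq_one b c
  rw [hu, sum_singleton] at h
  rw [hu, sum_singleton, sum_singleton, sum_singleton, if_pos rfl, h, mul_one]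

lemma trace_top_ge2 (hcard : 2 ≤ Fintype.card V) :
    (avgMixing ((⊤ : SimpleGraph V).adjMatrix ℝ)).trace
      = ((Fintype.card V : ℝ) ^ 2 - 2 * Fintype.card V + 2) / Fintype.card V := by
  have hne : Nonempty V := Fintype.card_pos_iff.mp (by omega)
  have hA := adj_hermitian (⊤ : SimpleGraph V)
  obtain ⟨b, ev, hb⟩ := exists_basis _ hA
  obtain ⟨i0, x, hD, hx, hsimple⟩ :=
    exists_perron (⊤ : SimpleGraph V) SimpleGraph.connected_top hcard b ev hb
  rw [trace_avg b ev hA hb]
  have hn : (2 : ℝ) ≤ Fintype.card V := by exact_mod_cast hcard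
  have hn0 : (0 : ℝ) < Fintype.card V := by linarith
  have hθ := hD.theta_pos
  -- all entries of `x` agree
  have hcc : ∀ v u, Dat.cc (adj (⊤ : SimpleGraph V)) v u = 1 := by
    intro v u
    unfold Dat.cc adj
    by_cases e : u = v
    · subst e; simp
    · simp [e, Ne.symm e]
  have hsumx : ∀ v, ∑ u, x u = (ev i0 + 1) * x v := by
    intro v
    rw [← hD.cc_eig v]
    exact sum_congr rfl fun u _ => by rw [hcc]; ring
  have hxc : ∀ u v, x u = x v := by
    intro u v
    have h1 := hsumx u
    rw [hsumx v] at h1
    have : (ev i0 + 1) ≠ 0 := by linarith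
    exact (mul_left_cancel₀ this h1).symm
  have hy : ∀ v, x v ^ 2 = 1 / Fintype.card V := by
    intro v
    have h1 := hD.unit
    have h2 : ∑ u, x u ^ 2 = Fintype.card V * x v ^ 2 := by
      rw [sum_congr rfl fun u _ => by rw [hxc u v]]
      simp
    rw [h2] at h1
    rw [eq_div_iff hn0.ne']; linarith
  -- other eigenvalues are `-1`
  have hbe : ∀ i v, ∑ w, adj (⊤ : SimpleGraph V) v w * b i w = ev i * b i v := by
    intro i v
    rw [← toEuc_apply, hb i]; simp
  have hev : ∀ i, i ≠ i0 → ev i = -1 := by
    intro i hi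
    have hcx : ∀ v w, adj (⊤ : SimpleGraph V) v w * b i w = b i w - (if w = v then b i w else 0) := by
      intro v w
      unfold adj
      by_cases e : w = v
      · subst e; simp
      · simp [e, Ne.symm e]
    have hs : ∀ v, ∑ w, b i w - b i v = ev i * b i v := by
      intro v
      rw [← hbe i v]
      simp_rw [hcx v]
      rw [sum_sub_distrib]; simp
    -- the sum of the entries times `(n - 1 - ev i)` is zero
    have hsum : ((Fintype.card V : ℝ) - 1 - ev i) * ∑ w, b i w = 0 := by
      have := sum_congr (rfl : (univ : Finset V) = univ) fun v _ => hs v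
      rw [sum_sub_distrib, ← mul_sum] at this
      simp only [sum_const, card_univ, nsmul_eq_mul] at this
      linarith
    have hi0 : ev i0 = Fintype.card V - 1 := by
      have h1 := hsumx i0
      have h2 : ∑ u, x u = Fintype.card V * x i0 := by
        rw [sum_congr rfl fun u _ => hxc u i0]; simp
      rw [h2] at h1
      have h3 := mul_right_cancel₀ (hD.pos i0).ne' h1
      linarith
    have hne' : (Fintype.card V : ℝ) - 1 - ev i ≠ 0 := by
      intro h
      exact hsimple i hi (by rw [hi0]; linarith)
    have hz : ∑ w, b i w = 0 := by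
      rcases mul_eq_zero.mp hsum with h | h
      · exact absurd h hne'
      · exact h
    by_contra hcon
    have : ∀ v, b i v = 0 := by
      intro v
      have h1 := hs v
      rw [hz] at h1
      have h2 : (ev i + 1) * b i v = 0 := by linarith
      rcases mul_eq_zero.mp h2 with h | h
      · exact absurd (by linarith) hcon
      · exact h
    have h3 := sum_vert b i
    simp [this] at h3
  have hvert : ∀ v, (∑ i, ∑ j, if ev i = ev j then (b i v) ^ 2 * (b j v) ^ 2 else 0)
      = (1 / (Fintype.card V : ℝ)) ^ 2 + (1 - 1 / (Fintype.card V : ℝ)) ^ 2 := by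
    intro v
    have hs := split_sum hsimple (fun i => (b i v) ^ 2)
    simp only at hs
    rw [hs, hx v, hy v]
    congr 1
    have s0 : ∑ i ∈ univ.erase i0, (b i v) ^ 2 = 1 - 1 / (Fintype.card V : ℝ) := by
      have := sum_sq_one b v
      rw [← add_sum_erase univ _ (mem_univ i0), hx v, hy v] at this
      linarith
    rw [← s0, sq, sum_mul_sum]
    refine sum_congr rfl fun i hi => sum_congr rfl fun j hj => ?_
    rw [if_pos]
    rw [hev i (ne_of_mem_erase hi), hev j (ne_of_mem_erase hj)]
  simp_rw [hvert]
  simp only [sum_const, card_univ, nsmul_eq_mul]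
  field_simp
  ring

lemma trace_top (hcard : 1 ≤ Fintype.card V) :
    (avgMixing ((⊤ : SimpleGraph V).adjMatrix ℝ)).trace
      = ((Fintype.card V : ℝ) ^ 2 - 2 * Fintype.card V + 2) / Fintype.card V := by
  rcases hcard.eq_or_lt with h | h
  · rw [trace_card_one _ (adj_hermitian _) h.symm, ← h]; norm_num
  · exact trace_top_ge2 h

theorem main (G : SimpleGraph V) [DecidableRel G.Adj] (hG : G.Connected) :
    (avgMixing (G.adjMatrix ℝ)).trace
      ≤ ((Fintype.card V : ℝ) ^ 2 - 2 * Fintype.card V + 2) / Fintype.card V := by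
  have hne : Nonempty V := hG.nonempty
  have hcard : 1 ≤ Fintype.card V := Fintype.card_pos
  rcases hcard.eq_or_lt with h | h
  · rw [trace_card_one _ (adj_hermitian _) h.symm, ← h]; norm_num
  · refine (main_ge2 G hG h).trans (le_of_eq ?_)
    have : (Fintype.card V : ℝ) ≠ 0 := by positivity
    field_simp

end Pool.Agent.X8.AM
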