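import Mathlib

/-! Broadcasts in graphs: definitions and a kernel search over broadcasts of small graphs. -/

namespace Pool.Agent.X8.BC

variable {V : Type*}

/-- the eccentricity of a vertex of a finite (connected) graph -/
noncomputable def ecc [Fintype V] (G : SimpleGraph V) (v : V) : ℕ :=
  Finset.univ.sup (fun u => G.dist v u)

/-- a broadcast: `f v` is at most the eccentricity of `v` -/
def IsBroadcast [Fintype V] (G : SimpleGraph V) (f : V → ℕ) : Prop := ∀ v, f v ≤ ecc G v

/-- `u` hears `f` from `v` -/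
def Hears (G : SimpleGraph V) (f : V → ℕ) (u v : V) : Prop := 0 < f v ∧ G.dist u v ≤ f v

/-- every vertex hears `f` -/
def Dominating (G : SimpleGraph V) (f : V → ℕ) : Prop := ∀ u, ∃ v, Hears G f u v

/-- minimal dominating broadcasts -/
def MinDom [Fintype V] (G : SimpleGraph V) (f : V → ℕ) : Prop :=
  IsBroadcast G f ∧ Dominating G f ∧
    ∀ g : V → ℕ, IsBroadcast G g → g ≤ f → g ≠ f → ¬ Dominating G g

/-- the upper broadcast (domination) number -/
noncomputable def upperB [Fintype V] (G : SimpleGraph V) : ℕ :=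
  sSup {w | ∃ f : V → ℕ, MinDom G f ∧ ∑ v, f v = w}

/-- private vertices -/
def Priv (G : SimpleGraph V) (f : V → ℕ) (v u : V) : Prop :=
  G.dist u v ≤ f v ∧ (f v = 1 ∨ G.dist u v = f v) ∧ ∀ w, w ≠ v → 0 < f w → f w < G.dist u w

theorem MinDom.priv [Fintype V] {G : SimpleGraph V} {f : V → ℕ} (h : MinDom G f) {v : V}
    (hv : 0 < f v) : ∃ u, Priv G f v u := by
  classical
  have hg := h.2.2 (Function.update f v (f v - 1))
    (by
      intro w
      by_cases hw : w = v
      · subst hw
        simp only [Function.update_self]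
        exact le_trans (Nat.sub_le _ _) (h.1 w)
      · rw [Function.update_of_ne hw]; exact h.1 w)
    (by
      intro w
      by_cases hw : w = v
      · subst hw
        simp only [Function.update_self]
        exact Nat.sub_le _ _
      · rw [Function.update_of_ne hw])
    (by
      intro he
      have := congrFun he v
      simp only [Function.update_self] at this
      omega)
  unfold Dominating at hg
  push Not at hg
  obtain ⟨u, hu⟩ := hg
  obtain ⟨w, hw0, hw1⟩ := h.2.1 u
  have hwv : w = v := by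
    by_contra hne
    apply hu w
    refine ⟨?_, ?_⟩
    · rw [Function.update_of_ne hne]; exact hw0
    · rw [Function.update_of_ne hne]; exact hw1
  subst hwv
  refine ⟨u, hw1, ?_, ?_⟩
  · have := hu w
    unfold Hears at this
    simp only [Function.update_self] at this
    by_contra hcon
    push Not at hcon
    apply this
    omega
  · intro x hx hx0
    have := hu x
    unfold Hears at this
    rw [Function.update_of_ne hx] at this
    by_contra hcon
    push Not at hcon
    exact this ⟨hx0, hcon⟩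

theorem minDom_of_priv [Fintype V] {G : SimpleGraph V} {f : V → ℕ} (h1 : IsBroadcast G f)
    (h2 : Dominating G f) (h3 : ∀ v, 0 < f v → ∃ u, Priv G f v u) : MinDom G f := by
  refine ⟨h1, h2, ?_⟩
  intro g _ hgf hne hdom
  have : ∃ v, g v < f v := by
    by_contra hcon
    push Not at hcon
    exact hne (le_antisymm hgf hcon)
  obtain ⟨v, hv⟩ := this
  obtain ⟨u, hu1, hu2, hu3⟩ := h3 v (by omega)
  obtain ⟨w, hw0, hw1⟩ := hdom u
  have hwf : g w ≤ f w := hgf w
  have hwv : w = v := by
    by_contra hne'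
    have := hu3 w hne' (by omega)
    omega
  subst hwv
  omega

/-- distances from a table -/
theorem dist_table (G : SimpleGraph V) (D : V → V → ℕ) (h0 : ∀ u, D u u = 0)
    (h1 : ∀ u v w, G.Adj v w → D u w ≤ D u v + 1)
    (h2 : ∀ u v, u ≠ v → ∃ w, G.Adj w v ∧ D u v = D u w + 1) :
    ∀ u v, G.Reachable u v ∧ G.dist u v = D u v := by
  have hw : ∀ k u v, D u v = k → ∃ p : G.Walk u v, p.length = k := by
    intro k
    induction k with
    | zero =>
      intro u v h
      by_cases huv : u = v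
      · subst huv
        exact ⟨SimpleGraph.Walk.nil, rfl⟩
      · obtain ⟨w, _, hw⟩ := h2 u v huv
        omega
    | succ k ih =>
      intro u v h
      have huv : u ≠ v := by
        rintro rfl
        rw [h0] at h
        omega
      obtain ⟨w, hw1, hw2⟩ := h2 u v huv
      obtain ⟨p, hp⟩ := ih u w (by omega)
      exact ⟨p.concat hw1, by rw [SimpleGraph.Walk.length_concat, hp]⟩
  have hlow : ∀ u v (p : G.Walk u v), ∀ x, D x v ≤ D x u + p.length := by
    intro u v p
    induction p with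
    | nil => intro x; simp
    | cons hadj p ih =>
      intro x
      have a := ih x
      have b := h1 x _ _ hadj
      rw [SimpleGraph.Walk.length_cons]
      omega
  intro u v
  obtain ⟨p, hp⟩ := hw _ u v rfl
  have hr : G.Reachable u v := ⟨p⟩
  refine ⟨hr, le_antisymm ?_ ?_⟩
  · rw [← hp]; exact SimpleGraph.dist_le p
  · obtain ⟨q, hq⟩ := hr.exists_walk_length_eq_dist
    have := hlow u v q u
    rw [h0, hq] at this
    omega

/-- search over the functions `f` with `f i ≤ e i`, cut by `P`, with final test `Q` -/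
def srch (e : ℕ → ℕ) (P Q : List (ℕ × ℕ) → Bool) : ℕ → List (ℕ × ℕ) → Bool
  | 0, L => Q L
  | (i + 1), L => srch e P Q i L &&
      (List.range (e i)).all (fun k => !P ((i, k + 1) :: L) || srch e P Q i ((i, k + 1) :: L))

/-- the list of the pairs `(i, f i)`, `j ≤ i < n`, `0 < f i` -/
def lst (f : ℕ → ℕ) : ℕ → ℕ → List (ℕ × ℕ)
  | _, 0 => []
  | j, (m + 1) => if 0 < f j then (j, f j) :: lst f (j + 1) m else lst f (j + 1) m

theorem mem_lst (f : ℕ → ℕ) (m : ℕ) : ∀ j x, x ∈ lst f j m ↔
    (j ≤ x.1 ∧ x.1 < j + m ∧ 0 < x.2 ∧ x.2 = f x.1) := by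
  induction m with
  | zero =>
    intro j x
    simp only [lst, List.not_mem_nil, false_iff, not_and]
    intro h1 h2
    omega
  | succ m ih =>
    intro j x
    rw [lst]
    split_ifs with h
    · rw [List.mem_cons, ih]
      constructor
      · rintro (rfl | ⟨h1, h2, h3, h4⟩)
        · exact ⟨le_refl _, by simp only; omega, h, rfl⟩
        · exact ⟨by omega, by omega, h3, h4⟩
      · rintro ⟨h1, h2, h3, h4⟩
        by_cases hj : x.1 = j
        · left
          ext
          · exact hj
          · rw [h4, hj]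
        · right
          exact ⟨by omega, by omega, h3, h4⟩
    · rw [ih]
      constructor
      · rintro ⟨h1, h2, h3, h4⟩
        exact ⟨by omega, by omega, h3, h4⟩
      · rintro ⟨h1, h2, h3, h4⟩
        have hj : x.1 ≠ j := by
          intro hj
          rw [hj] at h4
          omega
        exact ⟨by omega, by omega, h3, h4⟩

theorem srch_sound (e : ℕ → ℕ) (P Q : List (ℕ × ℕ) → Bool) (f : ℕ → ℕ) (n : ℕ)
    (hf : ∀ i, i < n → f i ≤ e i) (hP : ∀ j, j ≤ n → P (lst f j (n - j)) = true) :
    ∀ i, i ≤ n → srch e P Q i (lst f i (n - i)) = true → Q (lst f 0 n) = true := by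
  intro i
  induction i with
  | zero => intro _ h; simpa [srch] using h
  | succ i ih =>
    intro hi h
    rw [srch, Bool.and_eq_true, List.all_eq_true] at h
    obtain ⟨ha, hb⟩ := h
    apply ih (by omega)
    have hni : n - i = (n - (i + 1)) + 1 := by omega
    rw [hni, lst]
    split_ifs with h0
    · have hc := hb (f i - 1) (by rw [List.mem_range]; have := hf i (by omega); omega)
      have h1 : f i - 1 + 1 = f i := by omega
      rw [h1] at hc
      have hp := hP i (by omega)
      rw [hni, lst, if_pos h0] at hp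
      rw [hp] at hc
      simpa using hc
    · exact ha

/-- cost of a list -/
def costL : List (ℕ × ℕ) → ℕ
  | [] => 0
  | (x :: L) => x.2 + costL L

theorem costL_lst (f : ℕ → ℕ) (m : ℕ) : ∀ j, costL (lst f j m) = ∑ i ∈ Finset.Ico j (j + m), f i := by
  induction m with
  | zero => intro j; simp [lst, costL]
  | succ m ih =>
    intro j
    have hs : ∑ i ∈ Finset.Ico j (j + (m + 1)), f i = f j + ∑ i ∈ Finset.Ico (j + 1) (j + 1 + m), f i := by
      rw [Finset.sum_eq_sum_Ico_succ_bot (by omega),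
        show j + (m + 1) = j + 1 + m by omega]
    rw [hs, lst]
    split_ifs with h
    · rw [costL, ih]
    · rw [ih]; omega

/-- the function on `ℕ` -/
def ext {n : ℕ} (f : Fin n → ℕ) : ℕ → ℕ := fun i => if h : i < n then f ⟨i, h⟩ else 0

theorem ext_val {n : ℕ} (f : Fin n → ℕ) (i : Fin n) : ext f i = f i := by
  unfold ext
  rw [dif_pos i.2]

theorem sum_ext {n : ℕ} (f : Fin n → ℕ) : costL (lst (ext f) 0 n) = ∑ v, f v := by
  rw [costL_lst, zero_add, ← Finset.range_eq_Ico, Finset.sum_range]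
  exact Finset.sum_congr rfl (fun i _ => ext_val f i)

/-- each listed vertex has a private vertex (`D` is the distance table) -/
def irrL (n : ℕ) (D : ℕ → ℕ → ℕ) (L : List (ℕ × ℕ)) : Bool :=
  L.all (fun x => (List.range n).any (fun u =>
    Nat.ble (D u x.1) x.2 && (Nat.beq x.2 1 || Nat.beq (D u x.1) x.2) &&
      L.all (fun y => Nat.beq y.1 x.1 || Nat.blt y.2 (D u y.1))))

/-- each vertex hears the list -/
def domL (n : ℕ) (D : ℕ → ℕ → ℕ) (L : List (ℕ × ℕ)) : Bool :=
  (List.range n).all (fun u => L.any (fun x => Nat.ble (D u x.1) x.2))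

theorem irrL_lst {n : ℕ} (G : SimpleGraph (Fin n)) (D : ℕ → ℕ → ℕ)
    (hD : ∀ u v : Fin n, G.dist u v = D u v) (f : Fin n → ℕ)
    (h : ∀ v, 0 < f v → ∃ u, Priv G f v u) (j : ℕ) (hj : j ≤ n) :
    irrL n D (lst (ext f) j (n - j)) = true := by
  unfold irrL
  rw [List.all_eq_true]
  intro x hx
  rw [mem_lst] at hx
  obtain ⟨h1, h2, h3, h4⟩ := hx
  have hxn : x.1 < n := by omega
  have hfx : ext f x.1 = f ⟨x.1, hxn⟩ := by unfold ext; rw [dif_pos hxn]
  obtain ⟨u, hu1, hu2, hu3⟩ := h ⟨x.1, hxn⟩ (by rw [← hfx, ← h4]; exact h3)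
  rw [List.any_eq_true]
  refine ⟨u, List.mem_range.2 u.2, ?_⟩
  rw [hD] at hu1 hu2
  simp only at hu1 hu2
  rw [← hfx, ← h4] at hu1 hu2
  simp only [Bool.and_eq_true, Bool.or_eq_true, List.all_eq_true]
  refine ⟨⟨Nat.ble_eq_true_of_le hu1, ?_⟩, ?_⟩
  · rcases hu2 with h | h
    · left; exact Nat.beq_eq ▸ h
    · right; exact Nat.beq_eq ▸ h
  · intro y hy
    rw [mem_lst] at hy
    obtain ⟨g1, g2, g3, g4⟩ := hy
    by_cases hyx : y.1 = x.1
    · left; exact Nat.beq_eq ▸ hyx
    · right
      have hyn : y.1 < n := by omega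
      have hfy : ext f y.1 = f ⟨y.1, hyn⟩ := by unfold ext; rw [dif_pos hyn]
      have := hu3 ⟨y.1, hyn⟩ (by intro he; exact hyx (Fin.ext_iff.1 he)) (by rw [← hfy, ← g4]; exact g3)
      rw [hD, ← hfy, ← g4] at this
      simp only at this
      unfold Nat.blt
      exact Nat.ble_eq_true_of_le this

theorem domL_lst {n : ℕ} (G : SimpleGraph (Fin n)) (D : ℕ → ℕ → ℕ)
    (hD : ∀ u v : Fin n, G.dist u v = D u v) (f : Fin n → ℕ) (h : Dominating G f) :
    domL n D (lst (ext f) 0 n) = true := by
  unfold domL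
  rw [List.all_eq_true]
  intro u hu
  rw [List.mem_range] at hu
  obtain ⟨v, hv0, hv1⟩ := h ⟨u, hu⟩
  rw [List.any_eq_true]
  refine ⟨(v, f v), ?_, ?_⟩
  · rw [mem_lst]
    exact ⟨Nat.zero_le _, by simp only; omega, hv0, (ext_val f v).symm⟩
  · rw [hD] at hv1
    exact Nat.ble_eq_true_of_le hv1

/-- kernel test: all dominating irredundant broadcasts cost at most `b` -/
def testUpper (n : ℕ) (D : ℕ → ℕ → ℕ) (e : ℕ → ℕ) (b : ℕ) : Bool :=
  srch e (irrL n D) (fun L => !domL n D L || Nat.ble (costL L) b) n []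

theorem ecc_eq {n : ℕ} (G : SimpleGraph (Fin n)) (D : ℕ → ℕ → ℕ)
    (hD : ∀ u v : Fin n, G.dist u v = D u v) (e : ℕ → ℕ)
    (he : ∀ v : Fin n, Finset.univ.sup (fun u : Fin n => D v u) = e v) (v : Fin n) :
    ecc G v = e v := by
  unfold ecc
  rw [← he]
  simp only [hD]

theorem upperB_le {n : ℕ} (G : SimpleGraph (Fin n)) (D : ℕ → ℕ → ℕ)
    (hD : ∀ u v : Fin n, G.dist u v = D u v) (e : ℕ → ℕ)
    (he : ∀ v : Fin n, Finset.univ.sup (fun u : Fin n => D v u) = e v) (b : ℕ)
    (ht : testUpper n D e b = true) (f : Fin n → ℕ) (hf : MinDom G f) : ∑ v, f v ≤ b := by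
  have h := srch_sound e (irrL n D) (fun L => !domL n D L || Nat.ble (costL L) b) (ext f) n
    (by
      intro i hi
      unfold ext
      rw [dif_pos hi, ← ecc_eq G D hD e he ⟨i, hi⟩]
      exact hf.1 _)
    (by
      intro j hj
      exact irrL_lst G D hD f (fun v hv => hf.priv hv) j hj)
    n (le_refl _)
    (by
      have : lst (ext f) n (n - n) = [] := by rw [Nat.sub_self]; rfl
      rw [this]; exact ht)
  simp only [domL_lst G D hD f hf.2.1, Bool.not_true, Bool.false_or] at h
  rw [sum_ext] at h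
  exact Nat.le_of_ble_eq_true h

theorem upperB_bdd [Fintype V] (G : SimpleGraph V) :
    BddAbove {w | ∃ f : V → ℕ, MinDom G f ∧ ∑ v, f v = w} := by
  refine ⟨∑ v, ecc G v, ?_⟩
  rintro w ⟨f, hf, rfl⟩
  exact Finset.sum_le_sum (fun v _ => hf.1 v)

theorem le_upperB [Fintype V] (G : SimpleGraph V) {f : V → ℕ} (hf : MinDom G f) :
    ∑ v, f v ≤ upperB G := le_csSup (upperB_bdd G) ⟨f, hf, rfl⟩

theorem upperB_le' [Fintype V] (G : SimpleGraph V) (b : ℕ) (h : ∀ f, MinDom G f → ∑ v, f v ≤ b) :
    upperB G ≤ b := by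
  unfold upperB
  rcases Set.eq_empty_or_nonempty {w | ∃ f : V → ℕ, MinDom G f ∧ ∑ v, f v = w} with h0 | h0
  · rw [h0]; simp
  · apply csSup_le h0
    rintro w ⟨f, hf, rfl⟩
    exact h f hf

/-- the graph on `Fin n` in which `i`, `j` are adjacent when the table has the entry 1 -/
def tabGraph (n : ℕ) (D : ℕ → ℕ → ℕ) : SimpleGraph (Fin n) :=
  SimpleGraph.fromRel (fun i j => D i j = 1)

instance (n : ℕ) (D : ℕ → ℕ → ℕ) : DecidableRel (tabGraph n D).Adj := fun i j =>
  decidable_of_iff (i ≠ j ∧ (D i j = 1 ∨ D j i = 1))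
    (SimpleGraph.fromRel_adj (fun i j : Fin n => D i j = 1) i j).symm

/-- check of a distance table -/
def tabOk (n : ℕ) (D : ℕ → ℕ → ℕ) : Bool :=
  (List.range n).all (fun u => Nat.beq (D u u) 0 && (List.range n).all (fun v =>
    Nat.beq (D u v) (D v u) && (Nat.beq u v || (Nat.ble 1 (D u v) && (List.range n).any (fun w =>
      Nat.beq (D w v) 1 && Nat.beq (D u v) (D u w + 1)))) &&
    (List.range n).all (fun w => !Nat.beq (D v w) 1 || Nat.ble (D u w) (D u v + 1))))

theorem tabOk_dist {n : ℕ} {D : ℕ → ℕ → ℕ} (h : tabOk n D = true) :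
    ∀ u v : Fin n, (tabGraph n D).Reachable u v ∧ (tabGraph n D).dist u v = D u v := by
  unfold tabOk at h
  simp only [List.all_eq_true, List.mem_range, Bool.and_eq_true, Bool.or_eq_true,
    Bool.not_eq_true', List.any_eq_true] at h
  have hadj : ∀ u v : Fin n, (tabGraph n D).Adj u v ↔ (u ≠ v ∧ (D u v = 1 ∨ D v u = 1)) :=
    fun u v => by unfold tabGraph; exact SimpleGraph.fromRel_adj _ u v
  have hsym : ∀ u v : Fin n, D u v = D v u := fun u v =>
    Nat.eq_of_beq_eq_true ((h u u.2).2 v v.2).1.1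
  have h00 : ∀ u : Fin n, D u u = 0 := fun u => Nat.eq_of_beq_eq_true (h u u.2).1
  apply dist_table (tabGraph n D) (fun u v => D u v)
  · exact h00
  · intro u v w hvw
    rw [hadj] at hvw
    have h1 : D v w = 1 := by
      rcases hvw.2 with h1 | h1
      · exact h1
      · rw [hsym]; exact h1
    rcases ((h u u.2).2 v v.2).2 w w.2 with h2 | h2
    · rw [h1] at h2
      exact absurd h2 (by decide)
    · exact Nat.le_of_ble_eq_true h2
  · intro u v huv
    rcases ((h u u.2).2 v v.2).1.2 with h1 | ⟨h1, w, hw, h2, h3⟩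
    · exact absurd (Fin.ext (Nat.eq_of_beq_eq_true h1)) huv
    · refine ⟨⟨w, hw⟩, ?_, Nat.eq_of_beq_eq_true h3⟩
      rw [hadj]
      have h4 : D w v = 1 := Nat.eq_of_beq_eq_true h2
      refine ⟨?_, Or.inl h4⟩
      rintro rfl
      have := h00 ⟨w, hw⟩
      simp only at this h4
      omega

theorem tabOk_connected {n : ℕ} {D : ℕ → ℕ → ℕ} (h : tabOk n D = true) (hn : 0 < n) :
    (tabGraph n D).Connected := by
  rw [SimpleGraph.connected_iff]
  exact ⟨fun u v => (tabOk_dist h u v).1, ⟨⟨0, hn⟩⟩⟩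

/-- test for a minimal dominating broadcast -/
def minDomTest (n : ℕ) (D : ℕ → ℕ → ℕ) (e : ℕ → ℕ) (f : ℕ → ℕ) : Bool :=
  (List.range n).all (fun v => Nat.ble (f v) (e v)) &&
  (List.range n).all (fun u => (List.range n).any (fun v => Nat.blt 0 (f v) && Nat.ble (D u v) (f v))) &&
  (List.range n).all (fun v => Nat.beq (f v) 0 || (List.range n).any (fun u =>
    Nat.ble (D u v) (f v) && (Nat.beq (f v) 1 || Nat.beq (D u v) (f v)) &&
      (List.range n).all (fun w => Nat.beq w v || Nat.beq (f w) 0 || Nat.blt (f w) (D u w))))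

theorem minDom_of_test {n : ℕ} {D : ℕ → ℕ → ℕ} (G : SimpleGraph (Fin n))
    (hD : ∀ u v : Fin n, G.dist u v = D u v) (e : ℕ → ℕ) (he : ∀ v : Fin n, ecc G v = e v)
    (f : ℕ → ℕ) (ht : minDomTest n D e f = true) : MinDom G (fun i => f i) := by
  unfold minDomTest at ht
  simp only [List.all_eq_true, List.mem_range, Bool.and_eq_true, Bool.or_eq_true,
    List.any_eq_true] at ht
  obtain ⟨⟨h1, h2⟩, h3⟩ := ht
  apply minDom_of_priv
  · intro v
    rw [he]
    exact Nat.le_of_ble_eq_true (h1 v v.2)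
  · intro u
    obtain ⟨v, hv, h4, h5⟩ := h2 u u.2
    refine ⟨⟨v, hv⟩, ?_, ?_⟩
    · have : Nat.ble 1 (f v) = true := h4
      exact Nat.le_of_ble_eq_true this
    · rw [hD]; exact Nat.le_of_ble_eq_true h5
  · intro v hv
    rcases h3 v v.2 with h4 | ⟨u, hu, ⟨h4, h5⟩, h6⟩
    · have := Nat.eq_of_beq_eq_true h4
      omega
    · refine ⟨⟨u, hu⟩, ?_, ?_, ?_⟩
      · rw [hD]; exact Nat.le_of_ble_eq_true h4
      · rw [hD]
        rcases h5 with h5 | h5
        · exact Or.inl (Nat.eq_of_beq_eq_true h5)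
        · exact Or.inr (Nat.eq_of_beq_eq_true h5)
      · intro w hw hw0
        change 0 < f w at hw0
        rw [hD]
        rcases h6 w w.2 with (h7 | h7) | h7
        · exact absurd (Fin.ext (Nat.eq_of_beq_eq_true h7)) hw
        · have := Nat.eq_of_beq_eq_true h7
          omega
        · have : Nat.ble (f w + 1) (D u w) = true := h7
          exact Nat.le_of_ble_eq_true this

end Pool.Agent.X8.BC
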