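import Pool.Agent.X8.BC

/-! bn-independent, irredundant broadcasts, and deletion of a vertex. -/

namespace Pool.Agent.X8.BC

variable {V : Type*}

/-- boundary independent: overlaps only on boundaries -/
def BNIndep (G : SimpleGraph V) (f : V → ℕ) : Prop :=
  ∀ u v, u ≠ v → 0 < f u → 0 < f v → ∀ x, G.dist x u ≤ f u → G.dist x v ≤ f v →
    (G.dist x u = f u ∧ G.dist x v = f v)

open Classical in
/-- irredundant: each broadcasting vertex `v` has a vertex `u` in its ball which hears nothing when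
the value at `v` is lowered by one -/
def Irred (G : SimpleGraph V) (f : V → ℕ) : Prop :=
  ∀ v, 0 < f v → ∃ u, G.dist u v ≤ f v ∧ ∀ w, ¬ Hears G (Function.update f v (f v - 1)) u w

/-- the maximum weight of a bn-independent irredundant broadcast -/
noncomputable def alphaBnr [Fintype V] (G : SimpleGraph V) : ℕ :=
  sSup {w | ∃ f : V → ℕ, IsBroadcast G f ∧ BNIndep G f ∧ Irred G f ∧ ∑ v, f v = w}

theorem irred_of_priv {G : SimpleGraph V} {f : V → ℕ}
    (h : ∀ v, 0 < f v → ∃ u, Priv G f v u) : Irred G f := by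
  classical
  intro v hv
  obtain ⟨u, h1, h2, h3⟩ := h v hv
  refine ⟨u, h1, ?_⟩
  rintro w ⟨hw0, hw1⟩
  by_cases hw : w = v
  · subst hw
    rw [Function.update_self] at hw0 hw1
    omega
  · rw [Function.update_of_ne hw] at hw0 hw1
    have := h3 w hw hw0
    omega

theorem le_alphaBnr [Fintype V] (G : SimpleGraph V) {f : V → ℕ} (h1 : IsBroadcast G f)
    (h2 : BNIndep G f) (h3 : Irred G f) : ∑ v, f v ≤ alphaBnr G := by
  apply le_csSup
  · refine ⟨∑ v, ecc G v, ?_⟩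
    rintro w ⟨g, hg, _, _, rfl⟩
    exact Finset.sum_le_sum (fun v _ => hg v)
  · exact ⟨f, h1, h2, h3, rfl⟩

/-- connectedness of a vertex-deleted graph from a rank function -/
theorem conn_of_rank (G : SimpleGraph V) (v r : V) (hr : r ≠ v) (R : V → ℕ)
    (h0 : ∀ w, w ≠ v → R w = 0 → w = r)
    (h1 : ∀ w, w ≠ v → R w ≠ 0 → ∃ w', w' ≠ v ∧ G.Adj w w' ∧ R w' < R w) :
    (G.induce {w | w ≠ v}).Connected := by
  have key : ∀ k, ∀ w (hw : w ≠ v), R w = k →
      (G.induce {w | w ≠ v}).Reachable ⟨w, hw⟩ ⟨r, hr⟩ := by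
    intro k
    induction k using Nat.strong_induction_on with
    | _ k ih =>
      intro w hw hk
      by_cases hz : R w = 0
      · have := h0 w hw hz
        subst this
        exact SimpleGraph.Reachable.refl _
      · obtain ⟨w', hw', hadj, hlt⟩ := h1 w hw hz
        have h2 := ih (R w') (by omega) w' hw' rfl
        refine SimpleGraph.Reachable.trans (SimpleGraph.Adj.reachable ?_) h2
        exact hadj
  rw [SimpleGraph.connected_iff]
  refine ⟨?_, ⟨⟨r, hr⟩⟩⟩
  rintro ⟨a, ha⟩ ⟨b, hb⟩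
  exact (key _ a ha rfl).trans (key _ b hb rfl).symm

/-- 2-connected: at least three vertices, connected, no cut vertex -/
def TwoConnected [Fintype V] (G : SimpleGraph V) : Prop :=
  3 ≤ Fintype.card V ∧ G.Connected ∧ ∀ v, (G.induce {w | w ≠ v}).Connected

/-- distance table of the graph on 12 vertices -/
def T12 : List (List ℕ) :=
  [[0, 3, 3, 3, 2, 2, 2, 2, 1, 2, 2, 1], [3, 0, 4, 3, 3, 1, 2, 3, 2, 3, 1, 2],
   [3, 4, 0, 3, 1, 3, 3, 2, 2, 1, 3, 2], [3, 3, 3, 0, 2, 2, 1, 1, 2, 2, 2, 2],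
   [2, 3, 1, 2, 0, 2, 2, 1, 1, 1, 2, 1], [2, 1, 3, 2, 2, 0, 1, 2, 1, 2, 1, 1],
   [2, 2, 3, 1, 2, 1, 0, 1, 1, 2, 1, 1], [2, 3, 2, 1, 1, 2, 1, 0, 1, 1, 2, 1],
   [1, 2, 2, 2, 1, 1, 1, 1, 0, 1, 1, 1], [2, 3, 1, 2, 1, 2, 2, 1, 1, 0, 2, 1],
   [2, 1, 3, 2, 2, 1, 1, 2, 1, 2, 0, 1], [1, 2, 2, 2, 1, 1, 1, 1, 1, 1, 1, 0]]

def D12 (i j : ℕ) : ℕ := (T12.getD i []).getD j 0
def e12 (i : ℕ) : ℕ := [3, 4, 4, 3, 3, 3, 3, 3, 2, 3, 3, 2].getD i 0

/-- the graph on 12 vertices -/
def G12 : SimpleGraph (Fin 12) := tabGraph 12 D12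
instance : DecidableRel G12.Adj := inferInstanceAs (DecidableRel (tabGraph 12 D12).Adj)

theorem ok12 : tabOk 12 D12 = true := by decide +kernel
theorem dist12 : ∀ u v : Fin 12, G12.dist u v = D12 u v := fun u v => (tabOk_dist ok12 u v).2
theorem ecc12 (v : Fin 12) : ecc G12 v = e12 v := ecc_eq G12 D12 dist12 e12 (by decide +kernel) v

theorem upper12 : upperB G12 ≤ 4 := upperB_le' G12 4 (fun f hf =>
  upperB_le G12 D12 dist12 e12 (by decide +kernel) 4 (by decide +kernel) f hf)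

def f12 (i : ℕ) : ℕ := [1, 2, 2, 0, 0, 0, 0, 0, 0, 0, 0, 0].getD i 0

theorem alpha12 : 5 ≤ alphaBnr G12 := by
  have h := le_alphaBnr G12 (f := fun i => f12 i)
    (by
      intro v
      rw [ecc12]
      revert v
      decide +kernel)
    (by
      have h : ∀ u v : Fin 12, u ≠ v → 0 < f12 u → 0 < f12 v → ∀ x : Fin 12, D12 x u ≤ f12 u →
          D12 x v ≤ f12 v → (D12 x u = f12 u ∧ D12 x v = f12 v) := by decide +kernel
      intro u v huv hu hv x
      rw [dist12, dist12]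
      exact h u v huv hu hv x)
    (irred_of_priv (by
      have h : ∀ v : Fin 12, 0 < f12 v → ∃ u : Fin 12, D12 u v ≤ f12 v ∧
          (f12 v = 1 ∨ D12 u v = f12 v) ∧ ∀ w : Fin 12, w ≠ v → 0 < f12 w → f12 w < D12 u w := by
        decide +kernel
      intro v hv
      obtain ⟨u, h1, h2, h3⟩ := h v hv
      refine ⟨u, ?_, ?_, ?_⟩
      · rw [dist12]; exact h1
      · rw [dist12]; exact h2
      · intro w hw hw0
        rw [dist12]
        exact h3 w hw hw0))
  have hs : ∑ v : Fin 12, f12 v = 5 := by decide +kernel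
  omega

/-- ranks in the vertex-deleted graphs -/
def R12 (v w : ℕ) : ℕ := if w = (if v = 8 then 11 else 8) then 0 else (if w = 1 ∨ w = 2 ∨ w = 3 then 2 else 1)

theorem two12 : TwoConnected G12 := by
  refine ⟨by simp, tabOk_connected ok12 (by norm_num), ?_⟩
  intro v
  have h0 : ∀ v : Fin 12, (if v.1 = 8 then (11 : Fin 12) else 8) ≠ v := by decide +kernel
  have h1 : ∀ v w : Fin 12, w ≠ v → R12 v w = 0 → w = (if v.1 = 8 then (11 : Fin 12) else 8) := by
    decide +kernel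
  have h2 : ∀ v w : Fin 12, w ≠ v → R12 v w ≠ 0 → ∃ w' : Fin 12, w' ≠ v ∧ G12.Adj w w' ∧
      R12 v w' < R12 v w := by decide +kernel
  exact conn_of_rank G12 v _ (h0 v) (fun w => R12 v w) (h1 v) (h2 v)

theorem deg12 : ∀ v, 2 ≤ G12.degree v := by decide +kernel

end Pool.Agent.X8.BC
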