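import Mathlib

/-!
A balanced digraph on 10 vertices violating the conjectured quartic bound on the pair
(algebraic connectivity of the digraph, algebraic connectivity of its complement).
-/

namespace Pool.Agent.X8.BD

open Finset

variable {n : ℕ}

/-- A digraph on `Fin n` is given by its arc indicator `E`; `E i j = true` iff `(i,j)` is an arc. -/
def outdeg (E : Fin n → Fin n → Bool) (i : Fin n) : ℕ := (univ.filter fun j => E i j = true).card

/-- in-degree -/
def indeg (E : Fin n → Fin n → Bool) (i : Fin n) : ℕ := (univ.filter fun j => E j i = true).card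

/-- no loops -/
def Loopless (E : Fin n → Fin n → Bool) : Prop := ∀ i, E i i = false

/-- every in-degree equals the out-degree -/
def Balanced (E : Fin n → Fin n → Bool) : Prop := ∀ i, outdeg E i = indeg E i

/-- the complement: exactly the arcs `(i,j)`, `i ≠ j`, that are not arcs of the digraph -/
def complDig (E : Fin n → Fin n → Bool) : Fin n → Fin n → Bool := fun i j => decide (i ≠ j) && !(E i j)

/-- the Laplacian matrix `D - A` -/
def lap (E : Fin n → Fin n → Bool) : Matrix (Fin n) (Fin n) ℝ :=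
  fun i j => (if i = j then (outdeg E i : ℝ) else 0) - (if E i j = true then 1 else 0)

/-- the algebraic connectivity: infimum of `xᵀ L x` over unit vectors orthogonal to the all-ones
vector -/
noncomputable def alpha (E : Fin n → Fin n → Bool) : ℝ :=
  sInf {r | ∃ x : Fin n → ℝ, ∑ i, x i = 0 ∧ ∑ i, x i ^ 2 = 1 ∧
    r = ∑ i, ∑ j, x i * lap E i j * x j}

/-- arc indicator as a real number -/
def e (E : Fin n → Fin n → Bool) (i j : Fin n) : ℝ := if E i j = true then 1 else 0

lemma e_nonneg (E : Fin n → Fin n → Bool) (i j : Fin n) : 0 ≤ e E i j := by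
  unfold e; split_ifs <;> norm_num

lemma outdeg_eq (E : Fin n → Fin n → Bool) (i : Fin n) : (outdeg E i : ℝ) = ∑ j, e E i j := by
  simp [outdeg, e, Finset.sum_boole]

lemma indeg_eq (E : Fin n → Fin n → Bool) (i : Fin n) : (indeg E i : ℝ) = ∑ j, e E j i := by
  simp [indeg, e, Finset.sum_boole]

lemma quad_eq {E : Fin n → Fin n → Bool} (hE : Balanced E) (x : Fin n → ℝ) :
    ∑ i, ∑ j, x i * lap E i j * x j = 1 / 2 * ∑ i, ∑ j, e E i j * (x i - x j) ^ 2 := by
  have h1 : ∑ i, ∑ j, x i * lap E i j * x j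
      = ∑ i, (outdeg E i : ℝ) * x i ^ 2 - ∑ i, ∑ j, e E i j * (x i * x j) := by
    rw [← sum_sub_distrib]
    refine sum_congr rfl fun i _ => ?_
    have : ∀ j, x i * lap E i j * x j
        = (if i = j then (outdeg E i : ℝ) * x i * x j else 0) - e E i j * (x i * x j) := by
      intro j
      unfold lap e
      split_ifs <;> ring
    simp_rw [this]
    rw [sum_sub_distrib, sum_ite_eq]
    simp only [mem_univ, if_true]
    ring
  have h2 : ∑ i, ∑ j, e E i j * (x i - x j) ^ 2
      = ∑ i, (outdeg E i : ℝ) * x i ^ 2 + ∑ i, (outdeg E i : ℝ) * x i ^ 2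
        - 2 * ∑ i, ∑ j, e E i j * (x i * x j) := by
    have a1 : ∑ i, ∑ j, e E i j * x i ^ 2 = ∑ i, (outdeg E i : ℝ) * x i ^ 2 := by
      refine sum_congr rfl fun i _ => ?_
      rw [outdeg_eq, sum_mul]
    have a2 : ∑ i, ∑ j, e E i j * x j ^ 2 = ∑ i, (outdeg E i : ℝ) * x i ^ 2 := by
      rw [sum_comm]
      refine sum_congr rfl fun i _ => ?_
      rw [hE i, indeg_eq, sum_mul]
    rw [← a1]
    nth_rewrite 2 [a1]
    rw [← a2, mul_sum, ← sum_add_distrib, ← sum_sub_distrib]
    refine sum_congr rfl fun i _ => ?_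
    rw [mul_sum, ← sum_add_distrib, ← sum_sub_distrib]
    exact sum_congr rfl fun j _ => by ring
  rw [h1, h2]; ring

lemma quad_nonneg {E : Fin n → Fin n → Bool} (hE : Balanced E) (x : Fin n → ℝ) :
    0 ≤ ∑ i, ∑ j, x i * lap E i j * x j := by
  rw [quad_eq hE]
  have : 0 ≤ ∑ i, ∑ j, e E i j * (x i - x j) ^ 2 :=
    sum_nonneg fun i _ => sum_nonneg fun j _ => mul_nonneg (e_nonneg E i j) (sq_nonneg _)
  linarith

/-- If some vertex is joined to every other vertex by at least one arc then `α ≥ 1/2`. -/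
lemma quad_ge {E : Fin n → Fin n → Bool} (hE : Balanced E) (u : Fin n)
    (hu : ∀ j, j ≠ u → E u j = true ∨ E j u = true) {x : Fin n → ℝ}
    (h0 : ∑ i, x i = 0) (h1 : ∑ i, x i ^ 2 = 1) :
    1 / 2 ≤ ∑ i, ∑ j, x i * lap E i j * x j := by
  rw [quad_eq hE]
  have key : 1 ≤ ∑ i, ∑ j, e E i j * (x i - x j) ^ 2 := by
    have s1 : ∑ j, (x u - x j) ^ 2 = n * x u ^ 2 + 1 := by
      have : ∀ j, (x u - x j) ^ 2 = x u ^ 2 - 2 * x u * x j + x j ^ 2 := fun j => by ring
      simp_rw [this]
      rw [sum_add_distrib, sum_sub_distrib, ← mul_sum, h0, h1]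
      simp
    have s2 : ∑ j, (x u - x j) ^ 2 ≤ ∑ j, (e E u j + e E j u) * (x u - x j) ^ 2 := by
      refine sum_le_sum fun j _ => ?_
      by_cases hj : j = u
      · subst hj; simp
      · have h5 : 1 ≤ e E u j + e E j u := by
          rcases hu j hj with h | h
          · have := e_nonneg E j u
            simp only [e, h, if_true] at *
            linarith
          · have := e_nonneg E u j
            simp only [e, h, if_true] at *
            linarith
        nlinarith [sq_nonneg (x u - x j)]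
    have s3 : ∑ j, (e E u j + e E j u) * (x u - x j) ^ 2
        = ∑ i, ∑ j, ((if i = u then e E i j * (x i - x j) ^ 2 else 0)
            + (if j = u then e E i j * (x i - x j) ^ 2 else 0)) := by
      simp_rw [sum_add_distrib]
      have a1 : ∑ i, ∑ j, (if i = u then e E i j * (x i - x j) ^ 2 else 0)
          = ∑ j, e E u j * (x u - x j) ^ 2 := by
        rw [sum_comm]
        refine sum_congr rfl fun j _ => ?_
        simp
      have a2 : ∑ i, ∑ j, (if j = u then e E i j * (x i - x j) ^ 2 else 0)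
          = ∑ j, e E j u * (x u - x j) ^ 2 := by
        refine sum_congr rfl fun i _ => ?_
        simp only [sum_ite_eq', mem_univ, if_true]
        ring
      rw [a1, a2, ← sum_add_distrib]
      exact sum_congr rfl fun j _ => by ring
    have s4 : ∑ i, ∑ j, ((if i = u then e E i j * (x i - x j) ^ 2 else 0)
            + (if j = u then e E i j * (x i - x j) ^ 2 else 0))
        ≤ ∑ i, ∑ j, e E i j * (x i - x j) ^ 2 := by
      refine sum_le_sum fun i _ => sum_le_sum fun j _ => ?_
      have := mul_nonneg (e_nonneg E i j) (sq_nonneg (x i - x j))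
      split_ifs with h2 h3
      · subst h2; subst h3; simp
      · linarith
      · linarith
      · linarith
    have s5 : 0 ≤ (n : ℝ) * x u ^ 2 := by positivity
    linarith
  linarith

lemma half_le_alpha {E : Fin n → Fin n → Bool} (hE : Balanced E) (u : Fin n)
    (hu : ∀ j, j ≠ u → E u j = true ∨ E j u = true)
    (hne : ∃ x : Fin n → ℝ, ∑ i, x i = 0 ∧ ∑ i, x i ^ 2 = 1) : 1 / 2 ≤ alpha E := by
  obtain ⟨x, hx0, hx1⟩ := hne
  refine le_csInf ⟨_, x, hx0, hx1, rfl⟩ ?_
  rintro r ⟨y, hy0, hy1, rfl⟩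
  exact quad_ge hE u hu hy0 hy1

lemma alpha_le {E : Fin n → Fin n → Bool} (hE : Balanced E) {f : Fin n → ℝ} {Q N : ℝ}
    (hN : 0 < N) (h0 : ∑ i, f i = 0) (h1 : ∑ i, f i ^ 2 = N)
    (h2 : ∑ i, ∑ j, f i * lap E i j * f j = Q) : alpha E ≤ Q / N := by
  refine csInf_le ⟨0, ?_⟩ ⟨fun i => f i / Real.sqrt N, ?_, ?_, ?_⟩
  · rintro r ⟨y, _, _, rfl⟩
    exact quad_nonneg hE y
  · rw [← sum_div, h0, zero_div]
  · simp_rw [div_pow]
    rw [← sum_div, h1, Real.sq_sqrt hN.le, div_self hN.ne']
  · rw [← h2, sum_div]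
    refine sum_congr rfl fun i _ => ?_
    rw [sum_div]
    refine sum_congr rfl fun j _ => ?_
    have hs : Real.sqrt N * Real.sqrt N = N := Real.mul_self_sqrt hN.le
    have hs0 : Real.sqrt N ≠ 0 := (Real.sqrt_pos.mpr hN).ne'
    field_simp
    rw [sq, hs]

end Pool.Agent.X8.BD
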