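import Pool.Agent.X8.BalDig

namespace Pool.Agent.X8.BD

open Finset

/-- The digraph: the directed 4-cycle `0 → 1 → 2 → 3 → 0`, together with pairs of opposite arcs
between `0` and `2`, between `0` and each of `4,…,9`, and between `3` and each of `4,…,9`. -/
def G10 (i j : Fin 10) : Bool :=
  (i.val == 0 && j.val == 1) || (i.val == 1 && j.val == 2) || (i.val == 2 && j.val == 3) ||
  (i.val == 3 && j.val == 0) || (i.val == 0 && j.val == 2) || (i.val == 2 && j.val == 0) ||
  (i.val == 0 && decide (4 ≤ j.val)) || (j.val == 0 && decide (4 ≤ i.val)) ||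
  (i.val == 3 && decide (4 ≤ j.val)) || (j.val == 3 && decide (4 ≤ i.val))

lemma G10_loopless : Loopless G10 := by unfold Loopless; decide

lemma G10_balanced : Balanced G10 := by unfold Balanced; decide

lemma G10c_balanced : Balanced (complDig G10) := by unfold Balanced; decide

/-- test vector for the digraph -/
def f : Fin 10 → ℤ := ![1, -16, -5, 2, 3, 3, 3, 3, 3, 3]

/-- test vector for the complement -/
def g : Fin 10 → ℤ := ![-16, 1, 2, -5, 3, 3, 3, 3, 3, 3]

/-- integer Laplacian -/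
def lapZ (E : Fin 10 → Fin 10 → Bool) (i j : Fin 10) : ℤ :=
  (if i = j then (outdeg E i : ℤ) else 0) - (if E i j = true then 1 else 0)

lemma lap_eq (E : Fin 10 → Fin 10 → Bool) (i j : Fin 10) : lap E i j = (lapZ E i j : ℝ) := by
  unfold lap lapZ
  split_ifs <;> push_cast <;> ring

lemma f_quad : ∑ i, ∑ j, f i * lapZ G10 i j * f j = 296 := by decide +kernel
lemma g_quad : ∑ i, ∑ j, g i * lapZ (complDig G10) i j * g j = 296 := by decide +kernel
lemma f_sum : ∑ i, f i = 0 := by decide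
lemma g_sum : ∑ i, g i = 0 := by decide
lemma f_sq : ∑ i, f i ^ 2 = 340 := by decide
lemma g_sq : ∑ i, g i ^ 2 = 340 := by decide

lemma alpha_le' {E : Fin 10 → Fin 10 → Bool} (hE : Balanced E) {h : Fin 10 → ℤ}
    (h0 : ∑ i, h i = 0) (h1 : ∑ i, h i ^ 2 = 340)
    (h2 : ∑ i, ∑ j, h i * lapZ E i j * h j = 296) : alpha E ≤ 74 / 85 := by
  have := alpha_le hE (f := fun i => (h i : ℝ)) (Q := 296) (N := 340) (by norm_num)
    (by exact_mod_cast h0) (by exact_mod_cast h1)
    (by simp_rw [lap_eq]; exact_mod_cast h2)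
  norm_num at this ⊢
  linarith

lemma unit_exists : ∃ x : Fin 10 → ℝ, ∑ i, x i = 0 ∧ ∑ i, x i ^ 2 = 1 := by
  refine ⟨fun i => (f i : ℝ) / Real.sqrt 340, ?_, ?_⟩
  · rw [← sum_div]
    have : ∑ i, (f i : ℝ) = 0 := by exact_mod_cast f_sum
    rw [this, zero_div]
  · simp_rw [div_pow]
    rw [← sum_div]
    have : ∑ i, (f i : ℝ) ^ 2 = 340 := by exact_mod_cast f_sq
    rw [this, Real.sq_sqrt (by norm_num)]; norm_num

theorem main : Loopless G10 ∧ Balanced G10 ∧
    1 / 2 ≤ alpha G10 ∧ alpha G10 ≤ 74 / 85 ∧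
    1 / 2 ≤ alpha (complDig G10) ∧ alpha (complDig G10) ≤ 74 / 85 ∧
    alpha G10 * alpha (complDig G10) * (2 - alpha G10 * alpha (complDig G10)) <
      10 * (1 - alpha G10) * (1 - alpha (complDig G10)) * (10 - 2 - alpha G10 - alpha (complDig G10)) := by
  have hx0 : 1 / 2 ≤ alpha G10 := half_le_alpha G10_balanced 0 (by decide) unit_exists
  have hy0 : 1 / 2 ≤ alpha (complDig G10) := half_le_alpha G10c_balanced 1 (by decide) unit_exists
  have hx1 : alpha G10 ≤ 74 / 85 := alpha_le' G10_balanced f_sum f_sq f_quad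
  have hy1 : alpha (complDig G10) ≤ 74 / 85 := alpha_le' G10c_balanced g_sum g_sq g_quad
  refine ⟨G10_loopless, G10_balanced, hx0, hx1, hy0, hy1, ?_⟩
  generalize alpha G10 = x at *
  generalize alpha (complDig G10) = y at *
  have hs : x * y ≤ (74 / 85) * (74 / 85) := by nlinarith
  have h1 : x * y * (2 - x * y) ≤ (74 / 85) * (74 / 85) * (2 - (74 / 85) * (74 / 85)) := by
    have hs0 : 0 ≤ x * y := by nlinarith
    nlinarith
  have h2 : (1 - 74 / 85) * (1 - 74 / 85) ≤ (1 - x) * (1 - y) := by nlinarith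
  have h3 : (10 : ℝ) * ((1 - 74 / 85) * (1 - 74 / 85)) * (10 - 2 - 74 / 85 - 74 / 85)
      ≤ 10 * (1 - x) * (1 - y) * (10 - 2 - x - y) := by
    have h4 : (10 : ℝ) - 2 - 74 / 85 - 74 / 85 ≤ 10 - 2 - x - y := by linarith
    have h5 : (0 : ℝ) ≤ 10 * ((1 - 74 / 85) * (1 - 74 / 85)) := by norm_num
    have h6 : 10 * ((1 - 74 / 85) * (1 - 74 / 85)) ≤ 10 * ((1 - x) * (1 - y)) := by linarith
    calc (10 : ℝ) * ((1 - 74 / 85) * (1 - 74 / 85)) * (10 - 2 - 74 / 85 - 74 / 85)
        ≤ 10 * ((1 - x) * (1 - y)) * (10 - 2 - x - y) := by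
          apply mul_le_mul h6 h4 (by norm_num)
          linarith
      _ = _ := by ring
  refine lt_of_le_of_lt h1 (lt_of_lt_of_le ?_ h3)
  norm_num

end Pool.Agent.X8.BD
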